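import Pool.Agent.MP_5168f5_an.H17.Spec

/-! Alignment of normalised combinations of two forms. -/

namespace Pool.Agent.MP_5168f5_an.H17

open MeasureTheory Metric Finset Matrix H19 H29 H42 H83
open scoped ENNReal

namespace ALG

variable {m : ℕ}

/-- The determinant of two plane vectors. -/
def dt (ν ν' : V 2) : ℝ := ν 0 * ν' 1 - ν 1 * ν' 0

lemma ab {n : ℕ} (u : V n) (i : Fin n) : |u i| ≤ ‖u‖ := by
  simpa [Real.norm_eq_abs] using norm_le_pi_norm u i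

lemma dot2 (ν ξ : V 2) : ν ⬝ᵥ ξ = ν 0 * ξ 0 + ν 1 * ξ 1 := by
  simp [dotProduct, Fin.sum_univ_two]

lemma dot_le {n : ℕ} (u z : V n) : |u ⬝ᵥ z| ≤ n * ‖u‖ * ‖z‖ := by
  unfold dotProduct
  calc |∑ i, u i * z i| ≤ ∑ i, |u i * z i| := Finset.abs_sum_le_sum_abs _ _
    _ ≤ ∑ _i : Fin n, ‖u‖ * ‖z‖ := Finset.sum_le_sum fun i _ => by
        rw [abs_mul]; exact mul_le_mul (ab u i) (ab z i) (abs_nonneg _) (norm_nonneg _)
    _ = n * ‖u‖ * ‖z‖ := by simp [mul_assoc]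

lemma two (a b x y : ℝ) (ha : |a| ≤ 1) (hb : |b| ≤ 1) : |a * x - b * y| ≤ |x| + |y| := by
  have h := abs_sub (a * x) (b * y)
  rw [abs_mul, abs_mul] at h
  nlinarith [abs_nonneg x, abs_nonneg y]

lemma dt_mul (ν ν' ξ : V 2) (h : ‖ν‖ = 1) (h' : ‖ν'‖ = 1) (k : Fin 2) :
    |dt ν ν'| * |ξ k| ≤ |ν ⬝ᵥ ξ| + |ν' ⬝ᵥ ξ| := by
  have a0 := h ▸ ab ν 0
  have a1 := h ▸ ab ν 1
  have b0 := h' ▸ ab ν' 0
  have b1 := h' ▸ ab ν' 1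
  rw [← abs_mul]
  fin_cases k
  · have e : dt ν ν' * ξ 0 = ν' 1 * (ν ⬝ᵥ ξ) - ν 1 * (ν' ⬝ᵥ ξ) := by
      rw [dot2, dot2, dt]; ring
    show |dt ν ν' * ξ 0| ≤ _
    rw [e]; exact two _ _ _ _ b1 a1
  · have e : dt ν ν' * ξ 1 = ν 0 * (ν' ⬝ᵥ ξ) - ν' 0 * (ν ⬝ᵥ ξ) := by
      rw [dot2, dot2, dt]; ring
    show |dt ν ν' * ξ 1| ≤ _
    rw [e, add_comm]; exact two _ _ _ _ a0 b0

lemma mul_norm_le {ι E : Type} [Fintype ι] [SeminormedAddCommGroup E] (a b : ℝ) (ha : 0 ≤ a)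
    (hb : 0 ≤ b) (u : ι → E) (h : ∀ i, a * ‖u i‖ ≤ b) : a * ‖u‖ ≤ b := by
  rcases ha.eq_or_lt with h0 | h0
  · rw [← h0, zero_mul]; exact hb
  · rw [← le_div_iff₀' h0, pi_norm_le_iff_of_nonneg (div_nonneg hb ha)]
    intro i
    rw [le_div_iff₀' h0]; exact h i

lemma dt_norm (ν ν' ξ : V 2) (h : ‖ν‖ = 1) (h' : ‖ν'‖ = 1) :
    |dt ν ν'| * ‖ξ‖ ≤ |ν ⬝ᵥ ξ| + |ν' ⬝ᵥ ξ| :=
  mul_norm_le _ _ (abs_nonneg _) (by positivity) ξ fun k => by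
    rw [Real.norm_eq_abs]; exact dt_mul ν ν' ξ h h' k

lemma unit (ν : V 2) (h : ‖ν‖ = 1) : |ν 0| = 1 ∨ |ν 1| = 1 := by
  have a0 := h ▸ ab ν 0
  have a1 := h ▸ ab ν 1
  by_contra hc
  rw [not_or] at hc
  have : ‖ν‖ < 1 := by
    rw [pi_norm_lt_iff one_pos]
    intro k
    rw [Real.norm_eq_abs]
    fin_cases k
    · exact lt_of_le_of_ne a0 hc.1
    · exact lt_of_le_of_ne a1 hc.2
  exact absurd h this.ne

lemma shift (ν ν' η : V 2) (h : ‖ν‖ = 1) (h' : ‖ν'‖ = 1) :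
    |ν' ⬝ᵥ η| ≤ |ν ⬝ᵥ η| + |dt ν ν'| * ‖η‖ := by
  have b0 := h' ▸ ab ν' 0
  have b1 := h' ▸ ab ν' 1
  have d0 : |dt ν ν' * η 0| ≤ |dt ν ν'| * ‖η‖ := by
    rw [abs_mul]; exact mul_le_mul_of_nonneg_left (ab η 0) (abs_nonneg _)
  have d1 : |dt ν ν' * η 1| ≤ |dt ν ν'| * ‖η‖ := by
    rw [abs_mul]; exact mul_le_mul_of_nonneg_left (ab η 1) (abs_nonneg _)
  rcases unit ν h with u | u
  · have e : ν 0 * (ν' ⬝ᵥ η) = ν' 0 * (ν ⬝ᵥ η) - (-1) * (dt ν ν' * η 1) := by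
      rw [dot2, dot2, dt]; ring
    have t := two (ν' 0) (-1) (ν ⬝ᵥ η) (dt ν ν' * η 1) b0 (by simp)
    rw [← e, abs_mul, u, one_mul] at t
    linarith
  · have e : ν 1 * (ν' ⬝ᵥ η) = ν' 1 * (ν ⬝ᵥ η) - 1 * (dt ν ν' * η 0) := by
      rw [dot2, dot2, dt]; ring
    have t := two (ν' 1) 1 (ν ⬝ᵥ η) (dt ν ν' * η 0) b1 (by simp)
    rw [← e, abs_mul, u, one_mul] at t
    linarith

lemma cmb_apply (ν : V 2) (X : Fr m) (j : Fin (m + 1)) :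
    cmb ν X j = ν ⬝ᵥ (fun r => X r j) := by
  simp [cmb]

lemma col_le (X : Fr m) (j : Fin (m + 1)) : ‖(fun r => X r j : V 2)‖ ≤ ‖X‖ := by
  rw [pi_norm_le_iff_of_nonneg (norm_nonneg _)]
  intro r
  exact (norm_le_pi_norm (X r) j).trans (norm_le_pi_norm X r)

lemma cmb_shift (ν ν' : V 2) (X : Fr m) (h : ‖ν‖ = 1) (h' : ‖ν'‖ = 1) :
    ‖cmb ν' X‖ ≤ ‖cmb ν X‖ + |dt ν ν'| * ‖X‖ := by
  rw [pi_norm_le_iff_of_nonneg (by positivity)]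
  intro j
  have s := shift ν ν' (fun r => X r j) h h'
  have c := mul_le_mul_of_nonneg_left (col_le X j) (abs_nonneg (dt ν ν'))
  have a := ab (cmb ν X) j
  rw [Real.norm_eq_abs, cmb_apply]
  rw [cmb_apply] at a
  linarith

lemma dt_frame (ν ν' : V 2) (X : Fr m) (h : ‖ν‖ = 1) (h' : ‖ν'‖ = 1) :
    |dt ν ν'| * ‖X‖ ≤ ‖cmb ν X‖ + ‖cmb ν' X‖ := by
  refine mul_norm_le _ _ (abs_nonneg _) (by positivity) X fun r => ?_
  refine mul_norm_le _ _ (abs_nonneg _) (by positivity) (X r) fun j => ?_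
  have s := dt_mul ν ν' (fun r => X r j) h h' r
  have a := ab (cmb ν X) j
  have b := ab (cmb ν' X) j
  rw [cmb_apply] at a b
  rw [Real.norm_eq_abs]
  linarith

lemma cmb_dot (ν : V 2) (X : Fr m) (z : V (m + 1)) : cmb ν X ⬝ᵥ z = ν ⬝ᵥ act X z := by
  simp [cmb, act, add_dotProduct, smul_dotProduct]

lemma cmb_sub (ν : V 2) (X Y : Fr m) : cmb ν (X - Y) = cmb ν X - cmb ν Y := by
  ext j; simp [cmb]; ring

lemma act_sub (X Y : Fr m) (z : V (m + 1)) : act (X - Y) z = act X z - act Y z := by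
  ext r; simp [act, sub_dotProduct]

lemma small (ν : V 2) (X : Fr m) (z : V (m + 1)) (θ : ℝ) (h : ‖ν‖ = 1) (hX : ‖act X z‖ ≤ θ) :
    |ν ⬝ᵥ act X z| ≤ 2 * θ := by
  have := dot_le ν (act X z)
  rw [h] at this
  push_cast at this
  linarith

lemma thin_dot (ν : V 2) (X : Fr m) (z : V (m + 1)) (w : ℝ) (hz : ‖z‖ ≤ 1)
    (hX : ‖cmb ν X‖ ≤ w) : |ν ⬝ᵥ act X z| ≤ ((m : ℝ) + 1) * w := by
  have := dot_le (cmb ν X) z
  rw [cmb_dot] at this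
  push_cast at this
  have h1 : ‖cmb ν X‖ * ‖z‖ ≤ w * 1 :=
    mul_le_mul hX hz (norm_nonneg _) ((norm_nonneg _).trans hX)
  have h2 : (0 : ℝ) ≤ (m : ℝ) + 1 := by positivity
  nlinarith [mul_le_mul_of_nonneg_left h1 h2]

/-- A form that is thin on `Y - P` is small on the vector `act (Q - P) z`. -/
lemma near (ν : V 2) (P Q Y : Fr m) (z : V (m + 1)) (θ w : ℝ) (h : ‖ν‖ = 1) (hz : ‖z‖ ≤ 1)
    (hw : θ ≤ w) (hQ : ‖act Q z‖ ≤ θ) (hY : ‖act Y z‖ ≤ θ) (hX : ‖cmb ν (Y - P)‖ ≤ w) :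
    |ν ⬝ᵥ act (Q - P) z| ≤ ((m : ℝ) + 1 + 4) * w := by
  have a := thin_dot ν (Y - P) z w hz hX
  have b := small ν Q z θ h hQ
  have c := small ν Y z θ h hY
  have e : ν ⬝ᵥ act (Q - P) z = ν ⬝ᵥ act (Y - P) z - ν ⬝ᵥ act Y z + ν ⬝ᵥ act Q z := by
    rw [act_sub, act_sub, dotProduct_sub, dotProduct_sub]; ring
  rw [e]
  rw [abs_le] at a b c ⊢
  constructor <;> nlinarith [a.1, a.2, b.1, b.2, c.1, c.2]

lemma dt_sb (d sb K x e : ℝ) (hd : 0 ≤ d) (hK : 1 ≤ K) (h : sb ≤ K * x) (he : d * x ≤ e) :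
    d * sb ≤ K * e := by
  nlinarith [mul_le_mul_of_nonneg_left h hd, mul_le_mul_of_nonneg_left he (zero_le_one.trans hK)]

lemma tri (P Q Y : Fr m) (sb : ℝ) (h1 : ‖Q - P‖ ≤ sb) (h2 : ‖Y - Q‖ ≤ sb) :
    ‖Y - P‖ ≤ 2 * sb := by
  have := norm_sub_le_norm_sub_add_norm_sub Y Q P
  linarith

end ALG

open ALG

theorem alg : StmtALG := by
  intro m
  have ha : (1 : ℝ) ≤ (m : ℝ) + 1 := by have := (Nat.cast_nonneg m : (0 : ℝ) ≤ m); linarith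
  set a : ℝ := (m : ℝ) + 1 with hadef
  refine ⟨a * (2 * (a * (6 * a + 19) + (a + 4)) + 1) + 2, by nlinarith [sq_nonneg a, mul_pos (mul_pos (zero_lt_one.trans_le ha) (zero_lt_one.trans_le ha)) (zero_lt_one.trans_le ha)], ?_⟩
  intro θ sb K W Lp Lq Ly L0 ν z0 z2 z3 hsb hK hθ hz0 hz2 hz3 hν h0 hL0 ⟨n1, hn1, t1⟩ ⟨n2, hn2, t2⟩
    ⟨n3, hn3, t3⟩ hq hy p0 l0 s0 q2 y2 s2 y3
  have hθ0 : 0 ≤ θ := (norm_nonneg _).trans p0
  have hW : 0 ≤ W := hθ0.trans hθ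
  have hKW : W ≤ K * W := by nlinarith
  have hK0 : 0 ≤ K := zero_le_one.trans hK
  have ha0 : 0 ≤ a := zero_le_one.trans ha
  -- first alignment
  have A1 := thin_dot n1 (Lq - Lp) z0 W hz0 t1
  have A2 : |n2 ⬝ᵥ act (Lq - Lp) z0| ≤ (a + 4) * W := by
    have := near n2 Lq Lp L0 z0 θ W hn2 hz0 hθ p0 l0 t2
    rw [act_sub, dotProduct_sub, abs_sub_comm, ← dotProduct_sub, ← act_sub] at this
    exact this
  have A3 := dt_sb _ sb K _ _ (abs_nonneg (dt n1 n2)) hK s0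
    ((dt_norm n1 n2 (act (Lq - Lp) z0) hn1 hn2).trans (add_le_add A1 A2))
  have A4 : ‖cmb n2 (Lq - Lp)‖ ≤ (2 * a + 5) * (K * W) := by
    have := cmb_shift n1 n2 (Lq - Lp) hn1 hn2
    have := mul_le_mul_of_nonneg_left hq (abs_nonneg (dt n1 n2))
    rw [← hadef] at A3
    nlinarith
  have A5 : ‖cmb n2 (L0 - Lp)‖ ≤ (2 * a + 6) * (K * W) := by
    have e : cmb n2 (L0 - Lp) = cmb n2 (L0 - Lq) + cmb n2 (Lq - Lp) := by
      rw [cmb_sub, cmb_sub, cmb_sub]; abel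
    have := norm_add_le (cmb n2 (L0 - Lq)) (cmb n2 (Lq - Lp))
    rw [e]; linarith
  -- second alignment
  have B1 : ‖cmb ν (Lq - Lp)‖ ≤ (6 * a + 19) * (K * W) := by
    have h1 := dt_frame n2 ν (L0 - Lp) hn2 hν
    have h2 := mul_le_mul_of_nonneg_left hL0 (abs_nonneg (dt n2 ν))
    have h3 := cmb_shift n2 ν (Lq - Lp) hn2 hν
    have h4 := mul_le_mul_of_nonneg_left hq (abs_nonneg (dt n2 ν))
    linarith
  -- third alignment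
  have C1 := thin_dot ν (Lq - Lp) z2 _ hz2 B1
  have C2 := near n3 Lp Lq Ly z2 θ W hn3 hz2 hθ q2 y2 t3
  have C3 := dt_sb _ sb K _ _ (abs_nonneg (dt n3 ν)) hK s2
    ((dt_norm n3 ν (act (Lq - Lp) z2) hn3 hν).trans (add_le_add C2 C1))
  rw [← hadef] at C3
  have hK2 : K * W ≤ K ^ 2 * W := by nlinarith [mul_le_mul_of_nonneg_left hKW hK0]
  have C4 : ‖cmb ν (Ly - Lp)‖ ≤ (2 * (a * (6 * a + 19) + (a + 4)) + 1) * (K ^ 2 * W) := by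
    have h3 := cmb_shift n3 ν (Ly - Lp) hn3 hν
    have h4 := mul_le_mul_of_nonneg_left (tri Lp Lq Ly sb hq hy) (abs_nonneg (dt n3 ν))
    have h5 := mul_le_mul_of_nonneg_left hK2 (by linarith : 0 ≤ a + 4)
    nlinarith
  have D1 := thin_dot ν (Ly - Lp) z3 _ hz3 C4
  have D2 := small ν Ly z3 θ hν y3
  rw [← hadef] at D1
  have e : cmb ν Lp ⬝ᵥ z3 = ν ⬝ᵥ act Ly z3 - ν ⬝ᵥ act (Ly - Lp) z3 := by
    rw [cmb_dot, act_sub, dotProduct_sub]; ring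
  have t := abs_sub (ν ⬝ᵥ act Ly z3) (ν ⬝ᵥ act (Ly - Lp) z3)
  rw [e]
  nlinarith

theorem pair : StmtPAIR := by
  intro m
  have ha : (0 : ℝ) ≤ (m : ℝ) := Nat.cast_nonneg m
  refine ⟨4 * ((m : ℝ) + 1 + 4) + 2, by linarith, ?_⟩
  intro θ sb K w Lp Lq Ly Lz z2 hsb hK hθ hz hq hy hz' q2 y2 z2' s2 ⟨ny, hny, ty⟩ ⟨nz, hnz, tz⟩
  have hw : 0 ≤ w := ((norm_nonneg _).trans q2).trans hθ
  have hKW : w ≤ K * w := by nlinarith
  have A1 := near ny Lp Lq Ly z2 θ w hny hz hθ q2 y2 ty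
  have A2 := near nz Lp Lq Lz z2 θ w hnz hz hθ q2 z2' tz
  have A3 := dt_sb _ sb K _ _ (abs_nonneg (dt nz ny)) hK s2
    ((dt_norm nz ny (act (Lq - Lp) z2) hnz hny).trans (add_le_add A2 A1))
  have h3 := cmb_shift nz ny (Lz - Lp) hnz hny
  have h4 := mul_le_mul_of_nonneg_left (tri Lp Lq Lz sb hq hz') (abs_nonneg (dt nz ny))
  refine ⟨ny, hny, ?_⟩
  have e : cmb ny (Lz - Ly) = cmb ny (Lz - Lp) - cmb ny (Ly - Lp) := by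
    rw [cmb_sub, cmb_sub, cmb_sub]; abel
  have := norm_sub_le (cmb ny (Lz - Lp)) (cmb ny (Ly - Lp))
  rw [e]
  nlinarith

end Pool.Agent.MP_5168f5_an.H17
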