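import Pool.Agent.MP_5168f5_an.H17.Spec
import Pool.Agent.MP_5168f5_an.H83.Boot

/-! The bootstrap in every dimension. -/

namespace Pool.Agent.MP_5168f5_an.H17

open H42 H83

theorem gk_all (hG : StmtGAIN) (hE : StmtENDS) {m : ℕ} (hm : 3 ≤ m) {p : ℝ} (hp : p ≤ 4)
    (hq : (m : ℝ) - 1 ≤ 2 * (m + 1 - p) + (m + 1 - p - m / (m + 1)) * (4 - p)) : GK m 1 p := by
  have hmr : (3 : ℝ) ≤ m := by exact_mod_cast hm
  have h0 : (m : ℝ) / (m + 1) < 1 := by rw [div_lt_one (by linarith)]; linarith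
  refine gk_of_forall_lt fun d hd => ?_
  refine gk_mono (d := max d 3) ?_ (le_max_left _ _)
  obtain ⟨c, hc, h⟩ := hG m hm (max d 3) (le_max_right _ _) (max_lt (by linarith) (by norm_num)) (by
    rcases le_total d 3 with h1 | h1
    · rw [max_eq_right h1]
      linarith
    · rw [max_eq_left h1]
      nlinarith [mul_pos (sub_pos.2 hd) (show 0 < 2 + (m + 1 - p - m / (m + 1)) + (4 - d) by linarith)])
  exact gk_boot hc fun d' h2 h3 h4 => hE m _ (by linarith) (h d' h2 h3 h4)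

end Pool.Agent.MP_5168f5_an.H17
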