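import Pool.Agent.MP_5168f5_an.H17.Spec
import Pool.Agent.MP_5168f5_an.H83.CAPS

/-! The lines through a cell that lead back to a root lie in few caps. -/

namespace Pool.Agent.MP_5168f5_an.H17

open MeasureTheory Metric Finset Matrix H19 H29 H42 H83
open scoped ENNReal

variable {m : ℕ}

namespace CAPS

theorem dot_le {n : ℕ} {u w : V n} {p q : ℝ} (hu : ‖u‖ ≤ p) (hw : ‖w‖ ≤ q) :
    |u ⬝ᵥ w| ≤ n * (p * q) := by
  refine (abs_sum_le_sum_abs _ _).trans ((sum_le_card_nsmul _ _ (p * q) fun i _ => ?_).trans ?_)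
  · rw [abs_mul]
    exact mul_le_mul ((norm_le_pi_norm u i).trans hu) ((norm_le_pi_norm w i).trans hw)
      (abs_nonneg _) ((norm_nonneg _).trans hu)
  · simp

theorem cmb_dot (ν : V 2) (L : Fr m) (w : V (m + 1)) :
    cmb ν L ⬝ᵥ w = ν 0 * act L w 0 + ν 1 * act L w 1 := by
  simp [cmb, act]

theorem abs_cmb_dot {ν : V 2} (hν : ‖ν‖ = 1) {L : Fr m} {w : V (m + 1)} {θ : ℝ}
    (h : ‖act L w‖ ≤ θ) : |cmb ν L ⬝ᵥ w| ≤ 2 * θ := by
  have := dot_le hν.le h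
  rw [dotProduct, Fin.sum_univ_two] at this
  rw [cmb_dot]
  simpa using this

theorem norm_cmb {ν : V 2} (hν : ‖ν‖ = 1) {L : Fr m} {r : ℝ} (h : ‖L‖ ≤ r) :
    ‖cmb ν L‖ ≤ 2 * r := by
  have a : ∀ i, ‖ν i • L i‖ ≤ r := fun i => by
    rw [norm_smul]
    have := mul_le_mul ((norm_le_pi_norm ν i).trans hν.le) ((norm_le_pi_norm L i).trans h)
      (norm_nonneg _) zero_le_one
    rwa [one_mul] at this
  exact (norm_add_le _ _).trans (by linarith [a 0, a 1])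

theorem cmb_sub (ν : V 2) (L L' : Fr m) : cmb ν (L - L') = cmb ν L - cmb ν L' := by
  simp only [cmb, Pi.sub_apply]
  module

theorem exists_perp (ζ : V 2) : ∃ ν : V 2, ‖ν‖ = 1 ∧ ν 0 * ζ 0 + ν 1 * ζ 1 = 0 := by
  by_cases h : ζ = 0
  · exact ⟨Pi.single 0 1, by rw [Pi.norm_single, norm_one], by simp [h]⟩
  · have h1 : (![ζ 1, -ζ 0] : V 2) ≠ 0 := fun e => h (by
      have e0 := congrFun e 0
      have e1 := congrFun e 1
      simp only [cons_val_zero, cons_val_one, Pi.zero_apply, neg_eq_zero] at e0 e1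
      funext i
      fin_cases i
      exacts [e1, e0])
    refine ⟨‖(![ζ 1, -ζ 0] : V 2)‖⁻¹ • ![ζ 1, -ζ 0], norm_smul_inv_norm (𝕜 := ℝ) h1, ?_⟩
    simp only [Pi.smul_apply, cons_val_zero, cons_val_one, smul_eq_mul]
    ring

theorem one {Q : ℕ} {K θ : ℝ} {x y z : Pt m} {ψ : V (m + 1)} {g g1 : Line m}
    (hQ : 1 ≤ θ * Q) (hK : 1 ≤ K) (hψ : ‖ψ‖ ≤ 2 * m) (h0 : ψ ⬝ᵥ (cor z - cor x) = 0)
    (hx : x.2 < Q) (hy : y.2 < Q) (c1 : cell g1 x.2 = x.1) (c2 : cell g1 y.2 = y.1)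
    (c3 : cell g y.2 = y.1) (c4 : cell g z.2 = z.1) (hT : (Q : ℝ) ≤ K * |(y.2 : ℝ) - z.2|)
    (h1 : |ψ ⬝ᵥ dv g1| ≤ 2 * θ) : |ψ ⬝ᵥ dv g| ≤ (2 + 8 * m * (m + 1)) * K * θ := by
  have d1 := dist_cor c1
  have d2 := dist_cor c2
  have d3 := dist_cor c3
  have d4 := dist_cor c4
  rw [pt_pos] at d1 d2 d3 d4
  obtain ⟨E, hE, e⟩ : ∃ E : V (m + 1), ‖E‖ ≤ 4 ∧ ((y.2 : ℝ) - z.2) • dv g =
      ((y.2 : ℝ) - x.2) • dv g1 + E - (cor z - cor x) := by
    refine ⟨(pt 0 g1.1 + (x.2 : ℝ) • dv g1 - cor x) - (pt 0 g1.1 + (y.2 : ℝ) • dv g1 - cor y) +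
      ((pt 0 g.1 + (y.2 : ℝ) • dv g - cor y) - (pt 0 g.1 + (z.2 : ℝ) • dv g - cor z)), ?_,
      by module⟩
    exact (norm_add_le _ _).trans ((add_le_add (norm_sub_le _ _) (norm_sub_le _ _)).trans
      (by linarith))
  have e1 := congrArg (fun w => |ψ ⬝ᵥ w|) e
  simp only [dotProduct_sub ψ _ (cor z - cor x), h0, dotProduct_add, dotProduct_smul, smul_eq_mul,
    sub_zero, abs_mul] at e1
  have a1 := dot_le hψ hE
  have a2 := abs_add_le (((y.2 : ℝ) - x.2) * (ψ ⬝ᵥ dv g1)) (ψ ⬝ᵥ E)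
  have hQ0 : (0 : ℝ) < Q := by exact_mod_cast lt_of_le_of_lt (Nat.zero_le _) hx
  have a3 : |((y.2 : ℝ) - x.2) * (ψ ⬝ᵥ dv g1)| ≤ Q * (2 * θ) := by
    rw [abs_mul]
    exact mul_le_mul (H83.CAPS.abs_sub_le_of_lt hy hx) h1 (abs_nonneg _) hQ0.le
  push_cast at a1
  have a4 : (8 * m * (m + 1) : ℝ) * 1 ≤ 8 * m * (m + 1) * (θ * Q) :=
    mul_le_mul_of_nonneg_left hQ (by positivity)
  have a5 : |(y.2 : ℝ) - z.2| * |ψ ⬝ᵥ dv g| ≤ (2 + 8 * m * (m + 1)) * (θ * Q) := by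
    rw [e1]
    linarith
  have a6 := mul_le_mul_of_nonneg_right hT (abs_nonneg (ψ ⬝ᵥ dv g))
  have a7 := mul_le_mul_of_nonneg_left a5 (zero_le_one.trans hK)
  refine le_of_mul_le_mul_left ?_ hQ0
  linarith

end CAPS

theorem caps : StmtCOV → StmtCAPS := by
  intro hcov m hm
  obtain ⟨C, hC, hcov⟩ := hcov m hm
  obtain ⟨c, hc⟩ : ∃ c : ℝ, c = 2 + 8 * m * (m + 1) := ⟨_, rfl⟩
  have hm0 : (0 : ℝ) ≤ m := Nat.cast_nonneg _
  have hc0 : 0 ≤ c := by rw [hc]; positivity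
  have hD : (1 : ℝ) ≤ c + 2 + 4 * m := by linarith
  refine ⟨2 * C * (c + 2 + 4 * m), by nlinarith, ?_⟩
  intro Q K θ om M x z ι Lx Lz A hcap hQ hθ hK hom fx fz hpl hx hz hor h
  have hQ0 : (0 : ℝ) ≤ Q := Nat.cast_nonneg _
  have hθ0 : 0 < θ := by
    by_contra h'
    push Not at h'
    nlinarith [mul_nonneg hQ0 (neg_nonneg.2 h')]
  have hM := hcap.nonneg
  have hA : (0 : ℝ) ≤ A.card := Nat.cast_nonneg _
  have hp : θ ^ (m - 2) = θ ^ (m - 3) * θ := by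
    rw [← pow_succ]
    congr 1
    omega
  have hp0 : 0 < θ ^ (m - 3) := pow_pos hθ0 _
  rcases hor with ho | ho
  · have n1 : ‖(Pi.single 0 1 : V (m + 1))‖ = 1 := by rw [Pi.norm_single, norm_one]
    have h1 := hcov θ 1 M ι Lz (Pi.single 0 1) A hθ0 hθ fz hpl hcap (fun g hg => (h g hg).1)
      (fun r => Pi.single_eq_of_ne (Fin.succ_ne_zero _) _) (by rw [n1, one_mul]; exact hθ)
      (fun g _ => by simp [dv])
    rw [n1, hp] at h1
    have h2 := mul_le_mul_of_nonneg_left ho (mul_nonneg hA hp0.le)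
    have h3 : 2 * C * M * 1 ≤ 2 * C * M * ((c + 2 + 4 * m) * K) :=
      mul_le_mul_of_nonneg_left (by nlinarith) (by positivity)
    linarith
  · obtain ⟨ν, hν, hν0⟩ := CAPS.exists_perp (act Lx (cor z - cor x))
    rw [← CAPS.cmb_dot] at hν0
    have n1 : om / 2 < ‖cmb ν (Lz - Lx)‖ := lt_of_not_ge fun h' => ho ⟨ν, hν, h'⟩
    have n2 : ‖cmb ν (Lz - Lx)‖ ≤ 2 * (m + m) :=
      CAPS.norm_cmb hν ((norm_sub_le _ _).trans (add_le_add fz.2 fx.2))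
    have hKθ : θ ≤ K * θ := le_mul_of_one_le_left hθ0.le hK
    have h1 := hcov θ ((c + 2 + 4 * m) * K * θ) M ι Lz (cmb ν (Lz - Lx)) A hθ0 hθ fz hpl hcap
      (fun g hg => (h g hg).1) (fun r => by simp [cmb, fx.1, fz.1])
      (by
        have := mul_le_mul n2 hKθ hθ0.le (by positivity)
        have := mul_nonneg (add_nonneg hc0 zero_le_two) (hθ0.le.trans hKθ)
        linarith)
      (fun g hg => by
        obtain ⟨-, g1, y, hy, -, c1, c2, c3, c4, hT, h1⟩ := h g hg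
        have a1 := CAPS.one hQ hK (CAPS.norm_cmb hν fx.2) hν0 hx hy c1 c2 c3 c4 hT
          (CAPS.abs_cmb_dot hν h1)
        have a2 := CAPS.abs_cmb_dot hν (hpl g hg)
        have a3 := mul_nonneg hm0 (hθ0.le.trans hKθ)
        rw [← hc] at a1
        rw [CAPS.cmb_sub, sub_dotProduct]
        exact (abs_sub _ _).trans (by linarith))
    rw [hp] at h1
    have h2 := mul_le_mul_of_nonneg_left n1.le (mul_nonneg (mul_nonneg hA hp0.le) hθ0.le)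
    refine le_of_mul_le_mul_right ?_ hθ0
    linarith

end Pool.Agent.MP_5168f5_an.H17
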