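import Pool.Agent.MP_5168f5_an.H17.CoreA
import Pool.Agent.MP_5168f5_an.H83.PLANE

/-! The multiplicity bound when one level of thinness dominates. -/

namespace Pool.Agent.MP_5168f5_an.H17

open Finset Matrix H19 H29 H83 H83.PLANE

namespace CORE

variable {m : ℕ}

theorem exists_row (D : Fr m) : ∃ r, ‖D‖ ≤ ‖D r‖ := by
  obtain ⟨r, hr⟩ := Finite.exists_max fun r => ‖D r‖
  exact ⟨r, (pi_norm_le_iff_of_nonneg (norm_nonneg _)).2 hr⟩

theorem exists_unit {ν : V 2} (h : ‖ν‖ = 1) : ∃ r, 1 ≤ |ν r| := by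
  obtain ⟨r, hr⟩ := Finite.exists_max fun r => |ν r|
  exact ⟨r, h.ge.trans ((pi_norm_le_iff_of_nonneg (abs_nonneg _)).2 hr)⟩

theorem cmb_frame {ι : Fin 2 → Fin m} {L : Fr m} (h : Frame ι L) (ν : V 2) (r : Fin 2) :
    cmb ν L (ι r).succ = ν r := by
  simp only [cmb, Pi.add_apply, Pi.smul_apply, smul_eq_mul, h.1]
  fin_cases r <;> simp

theorem few {c C J j s l nX nE nW nP δ : ℝ} (hc : 0 < c) (hs : 0 < s) (hl : 0 < l) (hX : 0 < nX)
    (hj : 0 ≤ j) (hJ : 0 < J) (hC : 0 < C) (hJC : 8 * J ^ 2 ≤ C * (j + 1) ^ 2)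
    (hδ : δ = 3 * c * l * s / (32 * J)) (hE : 4 * δ * nX ≤ nE) (hW : nE * δ ≤ 2 * J ^ 2 * nW)
    (hP : nP ≤ (c / (C * (j + 1) ^ 2)) ^ 4 * (s * l * nX))
    (h : nW ^ 2 ≤ nX * (s * l * s) * (nP * (l * (s * l)))) : False := by
  have hδ0 : 0 < δ := by rw [hδ]; positivity
  have a1 : 2 * δ ^ 2 * nX / J ^ 2 ≤ nW := by
    rw [div_le_iff₀ (by positivity)]
    nlinarith [mul_le_mul_of_nonneg_right hE hδ0.le]
  have a2 : (2 * δ ^ 2 * nX / J ^ 2) ^ 2 ≤ nW ^ 2 := pow_le_pow_left₀ (by positivity) a1 2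
  have a3 : (c / (C * (j + 1) ^ 2)) ^ 4 ≤ (c / (8 * J ^ 2)) ^ 4 := by gcongr
  have a4 : nX * (s * l * s) * (nP * (l * (s * l))) ≤
      nX * (s * l * s) * ((c / (8 * J ^ 2)) ^ 4 * (s * l * nX) * (l * (s * l))) := by
    gcongr
    exact hP.trans (by gcongr)
  have e1 : (2 * δ ^ 2 * nX / J ^ 2) ^ 2 = 81 / 262144 * (c ^ 4 * (s * l) ^ 4 * nX ^ 2 / J ^ 8) := by
    rw [hδ]; field_simp; ring
  have e2 : nX * (s * l * s) * ((c / (8 * J ^ 2)) ^ 4 * (s * l * nX) * (l * (s * l))) =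
      1 / 4096 * (c ^ 4 * (s * l) ^ 4 * nX ^ 2 / J ^ 8) := by
    field_simp; ring
  have a5 : 0 < c ^ 4 * (s * l) ^ 4 * nX ^ 2 / J ^ 8 := by positivity
  rw [e1] at a2
  rw [e2] at a4
  linarith

end CORE

open CORE in
theorem core : StmtCOV → StmtSLAB → StmtALG → StmtPAIR → StmtCAPS → StmtCORE := by
  classical
  intro hCov hSl hAl hPa hCa m hm
  obtain ⟨C0, hC0, hCov⟩ := hCov m hm
  obtain ⟨C1, hC1, hSl⟩ := hSl m
  obtain ⟨Ca, hCa1, hAl⟩ := hAl m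
  obtain ⟨Cp, hCp, hPa⟩ := hPa m
  obtain ⟨C2, hC2, hCa⟩ := hCa m hm
  have hmr : (3 : ℝ) ≤ m := by exact_mod_cast hm
  obtain ⟨Cr, hCr⟩ : ∃ Cr : ℝ, Cr = Ca + (2 + 8 * m * (m + 1)) := ⟨_, rfl⟩
  have hCr1 : Ca ≤ Cr := by rw [hCr]; exact le_add_of_nonneg_right (by positivity)
  have hCr2 : 2 + 8 * m * (m + 1) ≤ Cr := by rw [hCr]; linarith
  obtain ⟨c1, hc1⟩ : ∃ c1 : ℝ, c1 = 8 * ((m : ℝ) + 3) ^ 2 := ⟨_, rfl⟩
  obtain ⟨c2, hc2⟩ : ∃ c2 : ℝ, c2 = 11 * (1 + 2 * C0) * (m + 3) := ⟨_, rfl⟩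
  obtain ⟨c3, hc3⟩ : ∃ c3 : ℝ, c3 = 10 ^ 7 * (C1 * Cr) * C2 * ((m : ℝ) + 3) ^ 11 * (40 * 43 ^ m) :=
    ⟨_, rfl⟩
  have p1 : 0 ≤ c1 := by rw [hc1]; positivity
  have p2 : 0 ≤ c2 := by rw [hc2]; positivity
  have hCr0 : 0 < Cr := by linarith
  have p3 : 0 ≤ c3 := by rw [hc3]; positivity
  refine ⟨Cp + c1 + c2 + c3, by linarith, ?_⟩
  intro Q s j K l c w ρ Mf Mk G X S ι L hG hI hne hs hj hK hc hc' hl hρ hx hlg h2e hMk hP hH
  obtain ⟨x1, hx1⟩ := hne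
  have hQ : 0 < Q := lt_of_le_of_lt (Nat.zero_le _) (hI x1 hx1).1
  have hQr : (0 : ℝ) < Q := by exact_mod_cast hQ
  have hsr : (0 : ℝ) < s := by exact_mod_cast hs
  have hMf : 0 ≤ Mf := (hx x1 hx1).2.2.2.nonneg
  have hMk0 : 0 ≤ Mk := (hx x1 hx1).2.2.1.nonneg
  have hK0 : 0 < K := by linarith
  have j0 : (0 : ℝ) ≤ j := Nat.cast_nonneg _
  set θ : ℝ := 1 / 2 ^ j with hθ
  have hθ0 : 0 < θ := by positivity
  have h2j : (1 : ℝ) ≤ 2 ^ j := one_le_pow₀ one_le_two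
  have hθ1 : θ ≤ 1 := by rw [hθ, div_le_one (by positivity)]; exact h2j
  have hθQ : 1 ≤ θ * Q := by
    rw [hθ, div_mul_eq_mul_div, one_mul, one_le_div (by positivity)]; exact_mod_cast hj
  have hθj : θ * 2 ^ j = 1 := by rw [hθ]; field_simp
  have hD : ∀ x ∈ X, ∀ y ∈ X, ‖L y - L x‖ ≤ 2 * m := fun x h y h' =>
    (norm_sub_le _ _).trans (by linarith [(hx x h).1.2, (hx y h').1.2])
  have hT0 : ∀ x ∈ X, ∀ y ∈ X, Thin (θ * 2 ^ (j + (m + 2))) (L y - L x) := fun x h y h' => by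
    refine thin_mono (thin_of_norm (hD x h y h')) ?_
    have : (m : ℝ) ≤ 2 ^ m := by exact_mod_cast Nat.lt_two_pow_self.le
    rw [pow_add, ← mul_assoc θ, hθj, pow_add]
    linarith
  obtain ⟨J, hJd⟩ : ∃ J : ℕ, J = j + (m + 3) := ⟨_, rfl⟩
  have hJ0 : 0 < J := by omega
  have hJ : (0 : ℝ) < J := by exact_mod_cast hJ0
  have hJm : (J : ℝ) ≤ (m + 3) * (j + 1) := by
    rw [hJd]; push_cast; linarith [mul_nonneg j0 (show (0 : ℝ) ≤ m + 2 by linarith)]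
  set fl : ℝ := 2 * m * K * θ with hfl
  have hfl0 : 0 < fl := by positivity
  have hflj : ∀ x ∈ X, ∀ y ∈ X, ‖L y - L x‖ ≤ fl * 2 ^ j := fun x h y h' => by
    rw [hfl, mul_assoc, hθj]
    linarith [hD x h y h', le_mul_of_one_le_right (show (0 : ℝ) ≤ 2 * m by linarith) hK]
  -- edges of one level
  obtain ⟨E0, hE0, hE0c⟩ := edges' (K := K) hI (mul_pos hc hl).le h2e hP
  obtain ⟨c0, -, E1, hE1, hE1m, hE1c⟩ := exists_fib E0 (fun e => lev fl ‖L e.2.2 - L e.2.1‖)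
    (Finset.range J) ⟨0, Finset.mem_range.2 hJ0⟩ (fun _ => 1) fun e he => by
      have h := ((hE0 e).1 he).1
      have := lev_le (hflj _ h.1 _ h.2.1)
      exact Finset.mem_range.2 (by omega)
  simp only [Finset.sum_const, nsmul_eq_mul, mul_one, Finset.card_range] at hE1c
  set δ : ℝ := 3 * c * l * s / (32 * J) with hδ
  have hδ0 : 0 < δ := by positivity
  obtain ⟨X', hX', hne', E2, hE2, hE2m, hE2X, hdeg⟩ := prune' X E1 (fun e => e.2.1) (fun e => e.2.2)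
    rev (fun e he => ⟨((hE0 e).1 (hE1 he)).1.1, ((hE0 e).1 (hE1 he)).1.2.1⟩)
    (fun e he => (hE1m _ ((hE0 _).2 ⟨((hE0 e).1 (hE1 he)).1.rev,
      thin_swap ((hE0 e).1 (hE1 he)).2⟩)).2 (by
      rw [← (hE1m e (hE1 he)).1 he]
      exact congrArg _ (norm_sub_rev _ _))) (fun _ => rfl) (fun _ => rfl) (d := 8 * δ)
    (by positivity) ⟨x1, hx1⟩ (by
      have e : 8 * δ * X.card = 3 / 4 * (c * l) * s * X.card / J := by
        rw [hδ]; field_simp; ring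
      rw [e, div_le_iff₀ hJ]; linarith)
  have hIE : ∀ e ∈ E2, IsE Q K X S e := fun e he => ((hE0 e).1 (hE1 (hE2 he))).1
  have hTE : ∀ e ∈ E2, Thin w (L e.2.2 - L e.2.1) := fun e he => ((hE0 e).1 (hE1 (hE2 he))).2
  set sb : ℝ := fl * 2 ^ c0 with hsb
  have hsb0 : 0 < sb := by positivity
  have hsbE : ∀ e ∈ E2, ‖L e.2.2 - L e.2.1‖ ≤ sb ∧ (sb = fl ∨ sb / 2 ≤ ‖L e.2.2 - L e.2.1‖) := by
    intro e he
    have h := hIE e he
    rw [hsb, ← (hE1m e (hE1 (hE2 he))).1 (hE2 he)]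
    exact ⟨le_lev (hflj _ h.1 _ h.2.1), lev_low _ _⟩
  have hv : ∀ x ∈ X, ∀ g ∈ S x, ∀ k, |g.2 k| ≤ 1 := fun x h g hg =>
    hG.1 g ((hI x h).2.2 g hg).1
  -- transversal continuations
  set F : Edge m → Finset (Edge m) := fun e => E2.filter fun e' =>
    e'.2.1 = e.2.2 ∧ 1 ≤ K * ‖e.1.2 - e'.1.2‖ ∧
      (sb = fl ∨ sb ≤ K * ‖act (L e.2.2 - L e.2.1) (dv e'.1)‖) with hF
  have hFc : ∀ e ∈ E2, δ ≤ (F e).card := by
    intro e he
    obtain ⟨B, hB, hB1, hB2⟩ := hdeg _ (hE2m e he).2.1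
    have hq := (hIE e he).2.1
    have hBS : ∀ e' ∈ B, e'.1 ∈ S e.2.2 := fun e' h' => by
      rw [← hB1 _ h']; exact (hIE _ (hB h')).2.2.1
    set B1 := B.filter fun e' => 1 ≤ K * ‖e.1.2 - e'.1.2‖ with hB1d
    have a1 := card_split B fun e' => 1 ≤ K * ‖e.1.2 - e'.1.2‖
    have a1' := card_split B1 fun e' => sb = fl ∨ sb ≤ K * ‖act (L e.2.2 - L e.2.1) (dv e'.1)‖
    have a2 : ((B1.filter fun e' => sb = fl ∨
        sb ≤ K * ‖act (L e.2.2 - L e.2.1) (dv e'.1)‖).card : ℝ) ≤ (F e).card :=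
      Nat.cast_le.2 (Finset.card_le_card fun e' h' => by
        obtain ⟨b1, b2⟩ := Finset.mem_filter.1 h'
        obtain ⟨b3, b4⟩ := Finset.mem_filter.1 b1
        exact Finset.mem_filter.2 ⟨hB b3, hB1 _ b3, b4, b2⟩)
    have a3 := out_le hI hl.le hlg (x := e.2.2) (n := Mk)
      (B.filter fun e' => ¬1 ≤ K * ‖e.1.2 - e'.1.2‖)
      (fun e' h' => ⟨hIE _ (hB (Finset.mem_filter.1 h').1), hB1 _ (Finset.mem_filter.1 h').1⟩)
      fun T hT => (hx _ hq).2.2.1 T (fun g hg => by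
        obtain ⟨e', h', rfl⟩ := hT g hg
        exact hBS _ (Finset.mem_filter.1 h').1) e.1.2 fun g hg k => by
        obtain ⟨e', h', rfl⟩ := hT g hg
        have b1 := not_le.1 (Finset.mem_filter.1 h').2
        have b2 := norm_le_pi_norm (e.1.2 - e'.1.2) k
        rw [Pi.sub_apply, Real.norm_eq_abs, abs_sub_comm] at b2
        rw [le_div_iff₀ hK0, mul_comm]
        exact (mul_le_mul_of_nonneg_left b2 hK0.le).trans b1.le
    have a3' := out_le hI hl.le hlg (x := e.2.2) (n := 2 * C0 * K ^ (m - 3) * Mk)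
      (B1.filter fun e' => ¬(sb = fl ∨ sb ≤ K * ‖act (L e.2.2 - L e.2.1) (dv e'.1)‖))
      (fun e' h' => ⟨hIE _ (hB (Finset.mem_filter.1 (Finset.mem_filter.1 h').1).1),
        hB1 _ (Finset.mem_filter.1 (Finset.mem_filter.1 h').1).1⟩) fun T hT => by
      rcases T.eq_empty_or_nonempty with rfl | ⟨g0, hg0⟩
      · simp only [Finset.card_empty, Nat.cast_zero]; positivity
      have hTm : ∀ g ∈ T, g ∈ S e.2.2 ∧ sb ≠ fl ∧ K * ‖act (L e.2.2 - L e.2.1) (dv g)‖ < sb := by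
        intro g hg
        obtain ⟨e', h', rfl⟩ := hT g hg
        obtain ⟨b1, b2⟩ := Finset.mem_filter.1 h'
        exact ⟨hBS _ (Finset.mem_filter.1 b1).1, (not_or.1 b2).1, not_le.1 (not_or.1 b2).2⟩
      have b0 := (hTm g0 hg0).2.1
      have b1 := (hsbE e he).2.resolve_left b0
      obtain ⟨r, hr⟩ := exists_row (L e.2.2 - L e.2.1)
      have b2 : 2 * fl ≤ sb := by
        rcases c0 with _ | c0
        · exact absurd (by rw [hsb, pow_zero, mul_one]) b0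
        · rw [hsb, pow_succ]
          linarith [le_mul_of_one_le_right hfl0.le (one_le_pow₀ (n := c0) (one_le_two (α := ℝ)))]
      have b3 : θ ≤ 1 / K := by
        rw [le_div_iff₀ hK0]
        have := hD _ (hIE e he).1 _ hq
        refine le_of_mul_le_mul_left ?_ (show (0 : ℝ) < 2 * m by linarith)
        linarith
      have b4 : 0 < ‖(L e.2.2 - L e.2.1) r‖ := by linarith
      have b5 := hCov (1 / K) (2 * ‖(L e.2.2 - L e.2.1) r‖ / K) Mk ι (L e.2.2)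
        ((L e.2.2 - L e.2.1) r) T (by positivity) ((div_le_one hK0).2 hK) (hx _ hq).1
        (fun g hg => ((hx _ hq).2.1 g (hTm g hg).1).trans b3)
        ((hx _ hq).2.2.1.mono fun g hg => (hTm g hg).1) (fun g hg => hv _ hq g (hTm g hg).1)
        (fun r' => by
          rw [Pi.sub_apply, Pi.sub_apply, (hx _ hq).1.1, (hx _ (hIE e he).1).1.1, sub_self])
        (by rw [mul_one_div]; gcongr; linarith) fun g hg => by
          have b6 := norm_le_pi_norm (act (L e.2.2 - L e.2.1) (dv g)) r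
          have b7 := (hTm g hg).2.2
          rw [le_div_iff₀ hK0]
          change ‖act (L e.2.2 - L e.2.1) (dv g) r‖ * K ≤ _
          linarith [mul_le_mul_of_nonneg_left b6 hK0.le]
      have e1 : K ^ (m - 2) = K ^ (m - 3) * K := by
        rw [← pow_succ]; congr 1; omega
      rw [one_div, inv_pow, e1, ← div_eq_mul_inv, div_le_iff₀ (by positivity)] at b5
      refine le_of_mul_le_mul_right (b5.trans (le_of_eq ?_)) b4
      field_simp
    have a4 : (1 + 2 * C0) * (K ^ (m - 3) * Mk) * l ≤ δ := by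
      rw [hδ, le_div_iff₀ (by positivity)]
      have b0 : 0 ≤ K ^ (m - 3) * Mk := by positivity
      have b1 : c2 * ((j + 1) * (K ^ (m - 3) * Mk)) ≤
          (Cp + c1 + c2 + c3) * ((j + 1) * (K ^ (m - 3) * Mk)) :=
        mul_le_mul_of_nonneg_right (by linarith) (by positivity)
      have b2 : (1 + 2 * C0) * (K ^ (m - 3) * Mk) * J ≤
          (1 + 2 * C0) * (K ^ (m - 3) * Mk) * ((m + 3) * (j + 1)) :=
        mul_le_mul_of_nonneg_left hJm (by positivity)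
      have b3 : 11 * ((1 + 2 * C0) * (K ^ (m - 3) * Mk) * J) ≤ c * s := by
        have b5 : c2 * ((j + 1) * (K ^ (m - 3) * Mk)) =
            11 * ((1 + 2 * C0) * (K ^ (m - 3) * Mk) * ((m + 3) * (j + 1))) := by rw [hc2]; ring
        linarith
      have b4 : 0 ≤ (1 + 2 * C0) * (K ^ (m - 3) * Mk) * J * l := by positivity
      linarith [mul_le_mul_of_nonneg_right b3 hl.le]
    have a5 : Mk * l ≤ K ^ (m - 3) * Mk * l :=
      mul_le_mul_of_nonneg_right (le_mul_of_one_le_left hMk0 (one_le_pow₀ hK)) hl.le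
    linarith
  obtain ⟨i, E3, hE3, hE3c, Fp, Fm, hFF⟩ := levels E2 rev (fun e he => (hE2m e he).2.2)
    (fun _ => rfl) F (fun e e' => tl θ (L e'.2.2 - L e.2.1)) hJ0 fun e he e' he' => by
      have := tl_le (hT0 _ (hIE e he).1 _ (hIE e' (Finset.mem_filter.1 he').1).2.1)
      omega
  set om : ℝ := θ * 2 ^ i with hom
  have hθom : θ ≤ om := le_mul_of_one_le_right hθ0.le (one_le_pow₀ one_le_two)
  have hom0 : 0 < om := by linarith
  have hom1 : om ≤ ρ * om := le_mul_of_one_le_left hom0.le hρ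
  have hFp : ∀ e ∈ E3, ∀ e' ∈ Fp e, e' ∈ E2 ∧ e'.2.1 = e.2.2 ∧ 1 ≤ K * ‖e.1.2 - e'.1.2‖ ∧
      (sb = fl ∨ sb ≤ K * ‖act (L e.2.2 - L e.2.1) (dv e'.1)‖) ∧ Thin om (L e'.2.2 - L e.2.1) ∧
      (om ≤ 2 * θ ∨ ¬Thin (om / 2) (L e'.2.2 - L e.2.1)) := by
    intro e he e' he'
    obtain ⟨b1, -, b2, -⟩ := hFF _ he
    obtain ⟨d1, d2, d3, d4⟩ := Finset.mem_filter.1 (b1 he')
    refine ⟨d1, d2, d3, d4, ?_, ?_⟩
    · rw [hom, ← b2 _ he']; exact thin_tl (hT0 _ (hIE _ (hE3 he)).1 _ (hIE _ d1).2.1)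
    · rw [hom, ← b2 _ he']; exact tl_low hθ0.le _
  have hFm : ∀ e ∈ E3, ∀ e' ∈ Fm e, e' ∈ E2 ∧ e'.2.1 = e.2.1 ∧
      (sb = fl ∨ sb ≤ K * ‖act (L e.2.1 - L e.2.2) (dv e'.1)‖) ∧ Thin om (L e'.2.2 - L e.2.2) := by
    intro e he e' he'
    obtain ⟨-, -, -, b3, -, b4⟩ := hFF _ he
    obtain ⟨d1, d2, -, d4⟩ := Finset.mem_filter.1 (b3 he')
    refine ⟨d1, d2, d4, thin_mono (thin_tl (hT0 _ (hIE _ (hE3 he)).2.1 _ (hIE _ d1).2.1)) ?_⟩
    exact mul_le_mul_of_nonneg_left (pow_le_pow_right₀ one_le_two (b4 _ he')) hθ0.le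
  have hPl : ∀ x ∈ X, ∀ g ∈ S x, ‖act (L x) (dv g)‖ ≤ θ := fun x h g hg => (hx x h).2.1 g hg
  have hz : ∀ x ∈ X, ∀ g ∈ S x, ‖dv g‖ ≤ 1 := fun x h g hg => norm_dv_le (hv x h g hg)
  -- the level of the trees dominates the thinness of the edges
  have hw : sb = fl ∨ w ≤ ρ * om := by
    refine or_iff_not_imp_left.2 fun b0 => ?_
    rcases hH with hH | hH
    · refine hH.trans ?_
      rw [div_eq_mul_one_div]
      exact mul_le_mul_of_nonneg_left hθom (by linarith)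
    by_contra b1
    have b2 : om ≤ w / ρ := by rw [le_div_iff₀ (by linarith)]; linarith [not_le.1 b1]
    set W : Finset (Edge m × Edge m) := (E3.sigma Fp).image fun p => (p.1, p.2) with hW
    have hWm : ∀ p ∈ W, p.1 ∈ E3 ∧ p.2 ∈ Fp p.1 := fun p hp => by
      obtain ⟨q, hq, rfl⟩ := Finset.mem_image.1 hp
      exact Finset.mem_sigma.1 hq
    have b3 := walks_le (K := K) hI hl.le hlg (prs G X S L ((Cp + c1 + c2 + c3) * K * w / ρ)) W
      (fun p hp => ⟨hIE _ (hE3 (hWm p hp).1), hIE _ (hFp _ (hWm p hp).1 _ (hWm p hp).2).1,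
        (hFp _ (hWm p hp).1 _ (hWm p hp).2).2.1⟩) fun p hp p' hp' e1 e2 => by
      obtain ⟨d1, d2, -, d3, d4, -⟩ := hFp _ (hWm p hp).1 _ (hWm p hp).2
      obtain ⟨f1, f2, -, -, f4, -⟩ := hFp _ (hWm p' hp').1 _ (hWm p' hp').2
      have i1 := hIE _ d1
      have i2 := hIE _ f1
      have g1 := (hsbE _ d1).1
      have g2 := (hsbE _ f1).1
      rw [d2] at g1
      rw [f2, ← e1] at g2
      rw [← e1] at f4
      have g3 : p.2.1 ∈ S p'.2.2.2 := e2 ▸ i2.2.2.2.1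
      refine (mem_prs hI).2 ⟨i1.2.1, i2.2.1, i1.2.2.2.1, g3, thin_mono
        (hPa θ sb K (w / ρ) _ _ _ _ (dv p.2.1) hsb0 hK (hθom.trans b2) (hz _ i1.1 _ i1.2.2.1)
          (hsbE _ (hE3 (hWm p hp).1)).1 g1 g2 (d2 ▸ hPl _ i1.1 _ i1.2.2.1)
          (hPl _ i1.2.1 _ i1.2.2.2.1) (hPl _ i2.2.1 _ g3) (d3.resolve_left b0)
          (thin_mono d4 b2) (thin_mono f4 b2)) ?_⟩
      rw [mul_div_assoc]
      have : 0 ≤ w / ρ := by linarith
      gcongr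
      linarith
    refine few hc hsr hl (Nat.cast_pos.2 (Finset.card_pos.2 ⟨x1, hx1⟩)) j0 hJ (by linarith) ?_ hδ
      (nE := E2.card) (by linarith) ?_ hH b3
    · calc 8 * (J : ℝ) ^ 2 ≤ 8 * ((m + 3) * (j + 1)) ^ 2 := by gcongr
        _ = c1 * (j + 1) ^ 2 := by rw [hc1]; ring
        _ ≤ _ := by gcongr; linarith
    · rw [hW, Finset.card_image_of_injective _ (by
        rintro ⟨e, e0⟩ ⟨e', e0'⟩ h
        simp only [Prod.mk.injEq] at h
        obtain ⟨rfl, rfl⟩ := h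
        rfl), Finset.card_sigma]
      have a2 := Finset.sum_le_sum fun e (he : e ∈ E3) => (hFc e (hE3 he)).trans (hFF e he).2.1
      rw [Finset.sum_const, nsmul_eq_mul, ← Finset.mul_sum] at a2
      rw [Nat.cast_sum]
      linarith [mul_le_mul_of_nonneg_right hE3c hδ0.le, mul_le_mul_of_nonneg_left a2 hJ.le]
  -- the trees
  set T : Finset (Tr m) := (E3.sigma fun e => Fm e ×ˢ (Fp e).sigma fun e' => S e'.2.2).image
    fun p => (p.1, p.2.1, p.2.2.1, p.2.2.2) with hT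
  have hTm : ∀ τ ∈ T, τ.1 ∈ E3 ∧ τ.2.1 ∈ Fm τ.1 ∧ τ.2.2.1 ∈ Fp τ.1 ∧ τ.2.2.2 ∈ S τ.2.2.1.2.2 := by
    intro τ hτ
    obtain ⟨p, hp, rfl⟩ := Finset.mem_image.1 hτ
    obtain ⟨p1, p2⟩ := Finset.mem_sigma.1 hp
    obtain ⟨p3, p4⟩ := Finset.mem_product.1 p2
    exact ⟨p1, p3, Finset.mem_sigma.1 p4⟩
  have hTc : (E2.card : ℝ) * δ ^ 2 * s ≤ 2 * (J : ℝ) ^ 3 * T.card := by
    rw [hT, Finset.card_image_of_injective _ (by
      rintro ⟨e, e0, e2, g⟩ ⟨e', e0', e2', g'⟩ h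
      simp only [Prod.mk.injEq] at h
      obtain ⟨rfl, rfl, rfl, rfl⟩ := h
      rfl), Finset.card_sigma]
    have a1 : ∀ e ∈ E3, δ ^ 2 * s ≤ (J : ℝ) ^ 2 *
        ((Fm e ×ˢ (Fp e).sigma fun e' => S e'.2.2).card : ℝ) := by
      intro e he
      obtain ⟨b1, b2, -, -, b3, -⟩ := hFF e he
      have b4 : ((Fp e).sigma fun e' => S e'.2.2).card = (Fp e).card * s := by
        rw [Finset.card_sigma, ← smul_eq_mul, ← Finset.sum_const]
        exact Finset.sum_congr rfl fun e' h' =>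
          (hI _ (hIE _ (Finset.mem_filter.1 (b1 h')).1).2.1).2.1
      rw [Finset.card_product, b4]
      have b5 := mul_le_mul ((hFc e (hE3 he)).trans b2)
        ((hFc _ (hE2m e (hE3 he)).2.2).trans b3) hδ0.le (by positivity)
      have b6 := mul_le_mul_of_nonneg_right b5 hsr.le
      push_cast at b6 ⊢
      linarith
    have a2 := Finset.sum_le_sum a1
    rw [Finset.sum_const, nsmul_eq_mul, ← Finset.mul_sum] at a2
    have a3 := mul_le_mul_of_nonneg_right hE3c (show 0 ≤ δ ^ 2 * s by positivity)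
    have a4 := mul_le_mul_of_nonneg_left a2 hJ.le
    rw [Nat.cast_sum]
    linarith
  have hTI : ∀ τ ∈ T, IsT Q K X S τ := by
    intro τ hτ
    obtain ⟨a1, a2, a3, a4⟩ := hTm τ hτ
    obtain ⟨b1, b2, b3, -⟩ := hFp _ a1 _ a3
    obtain ⟨d1, d2, -⟩ := hFm _ a1 _ a2
    exact ⟨hIE _ (hE3 a1), hIE _ d1, hIE _ b1, d2, b2, a4, b3⟩
  have hlog : 0 ≤ Real.log (2 * Q + 1) := Real.log_nonneg (by linarith)
  have hcM : 0 < cM m Q K 1 := by unfold cM; positivity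
  set M : ℝ := 2 * (J : ℝ) ^ 3 * s ^ 3 * l ^ 2 * cM m Q K 1 / δ ^ 3 with hM
  have hM0 : 0 < M := by positivity
  have hbad := bad_le hG hI hQ hK hl.le hlg hM0 X'
    (T.filter fun τ => M < (hair Q K X S τ.1.2.1 τ.2.2.1.1).card) fun τ hτ => by
      obtain ⟨a1, a2⟩ := Finset.mem_filter.1 hτ
      exact ⟨hTI τ a1, (hE2m _ (hE3 (hTm τ a1).1)).2.1, a2⟩
  have hgood := good_le hI hK hl.le hlg hM0.le (n3 := C1 * Q ^ m * (Cr * K ^ 2 * (ρ * om)))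
    (n2 := C2 * K * Mf / (om * θ ^ (m - 3))) (by positivity) (by positivity) E2
    (T.filter fun τ => ¬M < (hair Q K X S τ.1.2.1 τ.2.2.1.1).card) (fun τ hτ => by
      obtain ⟨a1, a2⟩ := Finset.mem_filter.1 hτ
      exact ⟨hTI τ a1, (hFm _ (hTm τ a1).1 _ (hTm τ a1).2.1).1, not_lt.1 a2⟩) (fun e D hD' hDm => by
      obtain ⟨g0, hg0⟩ := hD'
      obtain ⟨τ0, h0, e0, -⟩ := hDm g0 hg0
      have h0' := hTm τ0 (Finset.mem_filter.1 h0).1
      have he : e ∈ E2 := e0 ▸ (hFm _ h0'.1 _ h0'.2.1).1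
      obtain ⟨ν, hν, hν'⟩ := hTE e he
      obtain ⟨r, hr⟩ := exists_unit hν
      have hfr := (hx _ (hIE e he).1).1
      have hK2 : K ≤ K ^ 2 := le_self_pow₀ hK two_ne_zero
      refine hSl Q _ (cmb ν (L e.2.1)) (ι r) D (H83.Sep.mono hG fun g hg => ?_) ?_
        (by rw [cmb_frame hfr]; exact hr) ((norm_cmb_le hν _).trans (by linarith [hfr.2]))
        fun g hg => ?_
      · obtain ⟨τ, h1, -, rfl⟩ := hDm g hg
        have a1 := hTI τ (Finset.mem_filter.1 h1).1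
        exact ((hI _ a1.e2.2.1).2.2 _ a1.g3).1
      · refine hθQ.trans (mul_le_mul_of_nonneg_right ((hθom.trans hom1).trans
          (le_mul_of_one_le_left (by positivity) ?_)) hQr.le)
        exact one_le_mul_of_one_le_of_one_le (by linarith) (one_le_pow₀ hK)
      · obtain ⟨τ, h1, rfl, rfl⟩ := hDm g hg
        have a1 := hTI τ (Finset.mem_filter.1 h1).1
        obtain ⟨a2, a3, a4, -⟩ := hTm τ (Finset.mem_filter.1 h1).1
        obtain ⟨b1, -, -, b2, b3, -⟩ := hFp _ a2 _ a4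
        obtain ⟨-, -, d2, d3⟩ := hFm _ a2 _ a3
        have q1 := (hsbE _ (hE3 a2)).1
        have q2 := (hsbE _ b1).1
        rw [a1.s2] at q2
        have q3 := (hsbE _ he).2
        rw [a1.s0] at hν' q3 ⊢
        by_cases hs' : sb = fl
        · have f1 := abs_dot_le ν (act (L τ.2.2.1.2.2) (dv τ.2.2.2))
          have f2 := abs_dot_le (cmb ν (L τ.2.2.1.2.2 - L τ.1.2.1)) (dv τ.2.2.2)
          have f3 := norm_cmb_le hν (L τ.2.2.1.2.2 - L τ.1.2.1)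
          have f4 : ‖L τ.2.2.1.2.2 - L τ.1.2.1‖ ≤ 2 * fl := by
            rw [← sub_add_sub_cancel _ (L τ.1.2.2)]
            exact (norm_add_le _ _).trans (by linarith)
          have f5 := hPl _ a1.e2.2.1 _ a1.g3
          have f6 : ‖cmb ν (L τ.2.2.1.2.2 - L τ.1.2.1)‖ * ‖dv τ.2.2.2‖ ≤ 4 * fl * 1 :=
            mul_le_mul (by linarith) (hz _ a1.e2.2.1 _ a1.g3) (norm_nonneg _) (by positivity)
          have f7 : cmb ν (L τ.1.2.1) ⬝ᵥ dv τ.2.2.2 = ν ⬝ᵥ act (L τ.2.2.1.2.2) (dv τ.2.2.2) -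
              cmb ν (L τ.2.2.1.2.2 - L τ.1.2.1) ⬝ᵥ dv τ.2.2.2 := by
            rw [← cmb_dot, cmb_sub, sub_dotProduct]; ring
          rw [f7]
          refine (abs_sub _ _).trans ?_
          rw [hν] at f1
          push_cast at f1 f2
          have f8 := mul_le_mul_of_nonneg_left f6 (show (0 : ℝ) ≤ m + 1 by positivity)
          have f9 : θ ≤ K * θ := le_mul_of_one_le_left hθ0.le hK
          calc _ ≤ (2 + 8 * m * (m + 1)) * (K * θ) := by rw [hfl] at f8; linarith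
            _ ≤ Cr * (K ^ 2 * (ρ * om)) := by gcongr; linarith
            _ = _ := by ring
        have hw := hw.resolve_left hs'
        refine (hAl θ sb K (ρ * om) _ (L τ.1.2.2) (L τ.2.2.1.2.2) (L τ.2.1.2.2) ν (dv τ.2.1.1)
          (dv τ.2.2.1.1) _ hsb0 hK (hθom.trans hom1) (hz _ a1.e0.1 _ a1.e0.2.2.1)
          (hz _ a1.e2.1 _ a1.e2.2.2.1) (hz _ a1.e2.2.1 _ a1.g3) hν (hν'.trans hw)
          (q3.resolve_left hs') (thin_mono (hTE _ (hE3 a2)) hw) (thin_mono d3 hom1)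
          (thin_mono b3 hom1) q1 q2 (a1.s0 ▸ hPl _ a1.e0.1 _ a1.e0.2.2.1)
          (hPl _ a1.e0.2.1 _ a1.e0.2.2.2.1) ?_ (a1.s2 ▸ hPl _ a1.e2.1 _ a1.e2.2.2.1)
          (hPl _ a1.e2.2.1 _ a1.e2.2.2.2.1) (b2.resolve_left hs')
          (hPl _ a1.e2.2.1 _ a1.g3)).trans (by gcongr)
        refine (d2.resolve_left hs').trans (le_of_eq ?_)
        rw [← norm_neg]
        refine congrArg _ (congrArg _ (funext fun r => ?_))
        simp [act]) fun x z D hD' hDm => by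
      obtain ⟨g0, hg0⟩ := hD'
      obtain ⟨τ0, h0, e0, e1, -⟩ := hDm g0 hg0
      have i0 := hTI τ0 (Finset.mem_filter.1 h0).1
      have hxX : x ∈ X := e0 ▸ i0.e1.1
      have hzX : z ∈ X := e1 ▸ i0.e2.2.1
      have hDS : D ⊆ S z := fun g hg => by
        obtain ⟨τ, h1, -, rfl, rfl⟩ := hDm g hg
        exact (hTI τ (Finset.mem_filter.1 h1).1).e2.2.2.2.1
      have h0' := hTm τ0 (Finset.mem_filter.1 h0).1
      have a5 := (hFp _ h0'.1 _ h0'.2.2.1).2.2.2.2.2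
      rw [e0, e1] at a5
      rw [le_div_iff₀ (by positivity), ← mul_assoc]
      refine hCa Q K θ om Mf x z ι (L x) (L z) D ((hx z hzX).2.2.2.mono hDS) hθQ hθ1 hK hom0.le
        (hx x hxX).1 (hx z hzX).1 (fun g hg => hPl z hzX g (hDS hg)) (hI x hxX).1 (hI z hzX).1 a5
        fun g hg => ⟨hv z hzX g (hDS hg), ?_⟩
      obtain ⟨τ, h1, rfl, rfl, rfl⟩ := hDm g hg
      have a1 := hTI τ (Finset.mem_filter.1 h1).1
      have q2 : τ.2.2.1.1 ∈ S τ.1.2.2 := a1.s2 ▸ a1.e2.2.2.1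
      exact ⟨τ.1.1, τ.1.2.2, (hI _ a1.e1.2.1).1, hv _ a1.e1.1 _ a1.e1.2.2.1,
        ((hI _ a1.e1.1).2.2 _ a1.e1.2.2.1).2, ((hI _ a1.e1.2.1).2.2 _ a1.e1.2.2.2.1).2,
        ((hI _ a1.e1.2.1).2.2 _ q2).2, ((hI _ a1.e2.2.1).2.2 _ a1.e2.2.2.2.1).2,
        a1.s2 ▸ a1.e2.2.2.2.2, hPl _ a1.e1.1 _ a1.e1.2.2.1⟩
  have hE2c : 2 * δ * X'.card ≤ E2.card := by
    have a1 : ∀ x ∈ X', 2 * δ ≤ ((E2.filter fun e => e.2.1 = x).card : ℝ) := fun x h => by
      obtain ⟨B, hB, hB1, hB2⟩ := hdeg x h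
      have : (B.card : ℝ) ≤ (E2.filter fun e => e.2.1 = x).card := Nat.cast_le.2
        (Finset.card_le_card fun e he => Finset.mem_filter.2 ⟨hB he, hB1 e he⟩)
      linarith
    have a2 := Finset.sum_le_sum a1
    rw [Finset.sum_const, nsmul_eq_mul, ← Nat.cast_sum, ← Finset.card_eq_sum_card_fiberwise
      (fun e he => (hE2m e he).1)] at a2
    linarith
  have hsp := card_split T fun τ => M < (hair Q K X S τ.1.2.1 τ.2.2.1.1).card
  have e3 : C1 * Q ^ m * (Cr * K ^ 2 * (ρ * om)) * (l * (C2 * K * Mf / (om * θ ^ (m - 3)) *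
      (M * (2 * K + 3)))) = C1 * Cr * ((Q : ℝ) ^ m * ρ * (2 ^ j) ^ (m - 3) * K) * om *
      (l * (C2 * K ^ 2 * Mf / om * (M * (2 * K + 3)))) := by
    rw [hθ, one_div, inv_pow]; field_simp
  rw [e3] at hgood
  have key := alg hsr hl hc hJ hK (Q3 := (Q : ℝ) ^ m * ρ * (2 ^ j) ^ (m - 3) * K) (by positivity)
    hMf hcM (C1 := C1 * Cr) (C2 := C2) (by positivity) (by linarith)
    (Nat.cast_pos.2 hne'.card_pos) hom0 hδ hM hE2c hTc (by linarith)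
  calc (s : ℝ) ^ 3 * l ^ 2 * c ^ 5 ≤ _ := key
    _ = 10 ^ 7 * (C1 * Cr) * C2 * (J : ℝ) ^ 11 * (40 * 43 ^ m) * (K ^ (3 * m + 4) * ρ *
        (Q : ℝ) ^ (m + 1) * (1 + Real.log (2 * Q + 1)) * (2 ^ j) ^ (m - 3) * Mf) := by
        unfold cM; rw [mul_pow 43, ← pow_mul]; ring
    _ ≤ 10 ^ 7 * (C1 * Cr) * C2 * (((m : ℝ) + 3) * (j + 1)) ^ 11 * (40 * 43 ^ m) *
        (K ^ (3 * m + 4) * ρ * (Q : ℝ) ^ (m + 1) * (1 + Real.log (2 * Q + 1)) *
        (2 ^ j) ^ (m - 3) * Mf) := by gcongr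
    _ = c3 * (((j : ℝ) + 1) ^ 11 * K ^ (3 * m + 4) * ρ * (Q : ℝ) ^ (m + 1) *
        (1 + Real.log (2 * Q + 1)) * (2 ^ j) ^ (m - 3) * Mf) := by rw [hc3, mul_pow]; ring
    _ ≤ (Cp + c1 + c2 + c3) * (((j : ℝ) + 1) ^ 11 * K ^ (3 * m + 4) * ρ * (Q : ℝ) ^ (m + 1) *
        (1 + Real.log (2 * Q + 1)) * (2 ^ j) ^ (m - 3) * Mf) := by gcongr; linarith
    _ = _ := by ring

end Pool.Agent.MP_5168f5_an.H17
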