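import Pool.Agent.MP_5168f5_an.H17.Spec

namespace Pool.Agent.MP_5168f5_an.H17

open MeasureTheory Metric Finset Matrix H19 H29 H42 H83
open scoped ENNReal

namespace COV

variable {m : ℕ} {θ u : ℝ} {A : Finset (Line m)}

/-- The directions are close in the coordinates of `I`. -/
def Cl (θ : ℝ) (I : Finset (Fin m)) (B : Finset (Line m)) : Prop :=
  ∀ g ∈ B, ∀ g' ∈ B, ∀ k ∈ I, |g.2 k - g'.2 k| ≤ θ

theorem step (hθ : 0 < θ) (hu : 0 ≤ u) {I : Finset (Fin m)} (hI : Cl θ I A) (k : Fin m) {R : ℝ}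
    (hR : 0 ≤ R) (h : ∀ g ∈ A, ∀ g' ∈ A, |g.2 k - g'.2 k| ≤ R)
    (hB : ∀ B ⊆ A, Cl θ (insert k I) B → (B.card : ℝ) ≤ u) :
    (A.card : ℝ) ≤ (2 * (R / θ) + 3) * u := by
  rcases A.eq_empty_or_nonempty with rfl | ⟨g0, h0⟩
  · rw [card_empty, Nat.cast_zero]; positivity
  refine (card_le_of_fib A (fun g => ⌊g.2 k / θ⌋) (seg ⌊g0.2 k / θ⌋ (R / θ)) u
    (fun g hg => floor_mem_seg ?_) fun B hA c _ hc => hB B hA fun g hg g' hg' j hj => ?_).trans
    (mul_le_mul_of_nonneg_right (card_seg_le _ (by positivity)) hu)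
  · rw [← sub_div, abs_div, abs_of_pos hθ]
    exact div_le_div_of_nonneg_right (h g hg g0 h0) hθ.le
  · rcases mem_insert.1 hj with rfl | hj
    · have := Int.abs_sub_lt_one_of_floor_eq_floor ((hc g hg).trans (hc g' hg').symm)
      rw [← sub_div, abs_div, abs_of_pos hθ, div_lt_one hθ] at this
      exact this.le
    · exact hI g (hA hg) g' (hA hg') j hj

theorem free (hθ : 0 < θ) (h1 : θ ≤ 1) (h : ∀ g ∈ A, ∀ k, |g.2 k| ≤ 1) (I : Finset (Fin m)) :
    ∀ u : ℝ, 0 ≤ u → (∀ B ⊆ A, Cl θ I B → (B.card : ℝ) ≤ u) →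
      (A.card : ℝ) * θ ^ I.card ≤ 7 ^ I.card * u := by
  induction I using Finset.induction_on with
  | empty => exact fun u _ hB => by simpa using hB A subset_rfl (by simp [Cl])
  | insert k I hk ih =>
    intro u hu hB
    have h2 := ih ((2 * (2 / θ) + 3) * u) (by positivity) fun B hA hI =>
      step hθ hu hI k zero_le_two (fun g hg g' hg' => (abs_sub _ _).trans (by
        linarith [h g (hA hg) k, h g' (hA hg') k])) fun B' hB' => hB B' (hB'.trans hA)
    have h3 : (2 * (2 / θ) + 3) * θ ≤ 7 := by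
      rw [add_mul, mul_assoc, div_mul_cancel₀ _ hθ.ne']; linarith
    rw [card_insert_of_notMem hk, pow_succ, pow_succ, ← mul_assoc]
    calc _ ≤ 7 ^ I.card * ((2 * (2 / θ) + 3) * u) * θ := mul_le_mul_of_nonneg_right h2 hθ.le
      _ = 7 ^ I.card * ((2 * (2 / θ) + 3) * θ) * u := by ring
      _ ≤ _ := by gcongr

theorem dot_dv (φ : V (m + 1)) (g : Line m) : φ ⬝ᵥ dv g = φ 0 + ∑ j, φ j.succ * g.2 j := by
  simp [dotProduct, Fin.sum_univ_succ, dv]

theorem lin (hθ : 0 ≤ θ) {φ : V (m + 1)} {W N : ℝ} (hN : ‖φ‖ ≤ N) {I : Finset (Fin m)} {k : Fin m}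
    (h0 : ∀ j, j ≠ k → j ∉ I → φ j.succ = 0) (hI : Cl θ I A) (hW : ∀ g ∈ A, |φ ⬝ᵥ dv g| ≤ W) :
    ∀ g ∈ A, ∀ g' ∈ A, |φ k.succ| * |g.2 k - g'.2 k| ≤ 2 * W + m * N * θ := by
  intro g hg g' hg'
  have N0 := (norm_nonneg φ).trans hN
  have e : φ k.succ * (g.2 k - g'.2 k) = φ ⬝ᵥ dv g - φ ⬝ᵥ dv g'
      - ∑ j ∈ univ.erase k, φ j.succ * (g.2 j - g'.2 j) := by
    rw [dot_dv, dot_dv, add_sub_add_left_eq_sub, ← sum_sub_distrib,
      ← add_sum_erase _ _ (mem_univ k)]
    simp only [mul_sub]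
    ring
  have h1 : |∑ j ∈ univ.erase k, φ j.succ * (g.2 j - g'.2 j)| ≤ m * (N * θ) := by
    refine (abs_sum_le_sum_abs _ _).trans ((sum_le_card_nsmul _ _ (N * θ) fun j hj => ?_).trans ?_)
    · by_cases c : j ∈ I
      · rw [abs_mul]
        exact mul_le_mul ((norm_le_pi_norm φ _).trans hN) (hI g hg g' hg' j c) (abs_nonneg _) N0
      · rw [h0 j (ne_of_mem_erase hj) c, zero_mul, abs_zero]; positivity
    · rw [nsmul_eq_mul]
      refine mul_le_mul_of_nonneg_right ?_ (by positivity)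
      exact_mod_cast (card_le_univ _).trans (Fintype.card_fin m).le
  rw [← abs_mul, e]
  refine (abs_sub _ _).trans (add_le_add ((abs_sub _ _).trans ?_) (by rw [mul_assoc]; exact h1))
  linarith [hW g hg, hW g' hg']

theorem top (hθ : 0 < θ) {M : ℝ} {ι : Fin 2 → Fin m} {L : Fr m} (hF : Frame ι L) (hP : Pl θ L A)
    (hC : Cap θ M A) {I : Finset (Fin m)} (hI : ∀ j, j ∉ I → j = ι 0 ∨ j = ι 1) :
    ∀ B ⊆ A, Cl θ I B → (B.card : ℝ) ≤ (2 * (2 + m * m) + 3) ^ 2 * M := by
  have M0 := hC.nonneg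
  have key : ∀ (r : Fin 2) (B : Finset (Line m)), B ⊆ A → Cl θ I B →
      ∀ g ∈ B, ∀ g' ∈ B, |g.2 (ι r) - g'.2 (ι r)| ≤ (2 + m * m) * θ := fun r B hA hB g hg g' hg' => by
    have := lin (k := ι r) (W := θ) hθ.le ((norm_le_pi_norm L r).trans hF.2) (fun j h1 h2 => by
      rcases hI j h2 with rfl | rfl <;> rw [hF.1, if_neg (by rintro rfl; exact h1 rfl)]) hB
      (fun g hg => (norm_le_pi_norm (act L (dv g)) r).trans (hP g (hA hg))) g hg g' hg'
    rw [hF.1, if_pos rfl, abs_one, one_mul] at this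
    linarith
  intro B hA hB
  have e : (2 + m * m : ℝ) * θ / θ = 2 + m * m := mul_div_cancel_right₀ _ hθ.ne'
  have := step hθ (u := (2 * ((2 + m * m) * θ / θ) + 3) * M) (by positivity) hB (ι 0)
    (by positivity) (key 0 B hA hB) fun B1 h1 c1 =>
      step hθ M0 c1 (ι 1) (by positivity) (fun g hg g' hg' => key 1 B hA hB g (h1 hg) g' (h1 hg'))
        fun B2 h2 c2 => by
          rcases B2.eq_empty_or_nonempty with rfl | ⟨g0, h0⟩
          · simpa using M0
          refine hC B2 (h2.trans (h1.trans hA)) g0.2 fun g hg k => c2 g hg g0 h0 k ?_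
          by_cases c : k ∈ I
          · simp [c]
          · rcases hI k c with rfl | rfl <;> simp
  rw [e] at this
  rw [sq, mul_assoc]
  exact this

end COV

open COV

theorem cov : StmtCOV := by
  intro m hm
  have m3 : (3 : ℝ) ≤ m := by exact_mod_cast hm
  set c : ℝ := (2 * (2 + m * m) + 3) ^ 2 with hc
  have c1 : 1 ≤ c := one_le_pow₀ (by nlinarith)
  have p1 : (1 : ℝ) ≤ 7 ^ m := one_le_pow₀ (by norm_num)
  refine ⟨7 ^ m * c * (4 * m * (2 + m) + 3), one_le_mul_of_one_le_of_one_le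
    (one_le_mul_of_one_le_of_one_le p1 c1) (by nlinarith),
    fun θ W M ι L φ A hθ h1 hF hP hC hA h0 hW hφ => ?_⟩
  have M0 := hC.nonneg
  have a0 := norm_nonneg φ
  have W0 : 0 ≤ W := le_trans (by positivity) hW
  have ne : ι 0 ≠ ι 1 := fun e => by
    have := hF.1 0 0
    rw [e, hF.1 0 1] at this
    simp at this
  set I : Finset (Fin m) := univ \ {ι 0, ι 1} with hI
  have cI : I.card = m - 2 := by
    rw [hI, card_univ_sdiff, card_pair ne, Fintype.card_fin]
  have hT := top hθ hF hP hC (I := I) fun j hj => by simpa [hI, ← or_iff_not_imp_left] using hj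
  obtain ⟨j, -, hj⟩ := exists_max_image univ (fun j : Fin m => |φ j.succ|) ⟨ι 0, mem_univ _⟩
  have b0 := abs_nonneg (φ j.succ)
  rcases lt_or_ge (2 * m * |φ j.succ|) ‖φ‖ with h | h
  · rcases A.eq_empty_or_nonempty with rfl | ⟨g, hg⟩
    · rw [card_empty, Nat.cast_zero, zero_mul, zero_mul]; positivity
    have h2 : ‖φ‖ ≤ |φ 0| := by
      by_contra! d
      refine (lt_irrefl ‖φ‖) ((pi_norm_lt_iff (by nlinarith)).2 fun i => ?_)
      refine Fin.cases d (fun k => (hj k (mem_univ _)).trans_lt (by nlinarith)) i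
    have h3 : |∑ k, φ k.succ * g.2 k| ≤ m * |φ j.succ| := by
      refine (abs_sum_le_sum_abs _ _).trans ((sum_le_card_nsmul _ _ |φ j.succ| fun k _ => ?_).trans
        (by simp))
      rw [abs_mul]
      exact (mul_le_of_le_one_right (abs_nonneg _) (hA g hg k)).trans (hj k (mem_univ _))
    have h4 : |φ 0| ≤ W + m * |φ j.succ| := by
      rw [eq_sub_of_add_eq (dot_dv φ g).symm]
      exact (abs_sub _ _).trans (add_le_add (hφ g hg) h3)
    have h5 := free hθ h1 hA I (c * M) (by positivity) hT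
    rw [cI] at h5
    calc _ = (A.card : ℝ) * θ ^ (m - 2) * ‖φ‖ := by ring
      _ ≤ 7 ^ (m - 2) * (c * M) * (2 * W) := mul_le_mul h5 (by linarith) a0 (by positivity)
      _ = 7 ^ (m - 2) * c * 2 * W * M := by ring
      _ ≤ _ := by
        gcongr
        · norm_num
        · omega
        · nlinarith
  rcases a0.eq_or_lt with a1 | a1
  · rw [← a1, mul_zero, zero_mul]; positivity
  have b1 : 0 < |φ j.succ| := by
    by_contra! d
    nlinarith
  have jI : j ∈ I := by
    rw [hI, mem_sdiff, mem_insert, mem_singleton]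
    refine ⟨mem_univ _, ?_⟩
    rintro (rfl | rfl) <;> simp [h0] at b1
  set R : ℝ := 2 * m * (2 + m) * W / ‖φ‖ with hR
  have h5 := free hθ h1 hA (I.erase j) ((2 * (R / θ) + 3) * (c * M)) (by positivity)
    fun B hB cB => step hθ (by positivity) cB j (by positivity) (fun g hg g' hg' => by
      have := lin (k := j) hθ.le le_rfl (fun k k1 k2 => by
        have : k ∉ I := fun d => k2 (mem_erase.2 ⟨k1, d⟩)
        have : k = ι 0 ∨ k = ι 1 := by simpa [hI, ← or_iff_not_imp_left] using this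
        rcases this with rfl | rfl <;> exact h0 _) cB (fun g hg => hφ g (hB hg)) g hg g' hg'
      rw [hR, le_div_iff₀ a1]
      calc _ ≤ |g.2 j - g'.2 j| * (2 * m * |φ j.succ|) := by gcongr
        _ = 2 * m * (|φ j.succ| * |g.2 j - g'.2 j|) := by ring
        _ ≤ 2 * m * ((2 + m) * W) := by
          refine mul_le_mul_of_nonneg_left (this.trans ?_) (by positivity)
          nlinarith
        _ = _ := by ring) fun B' hB' cB' => hT B' (hB'.trans hB) (by rwa [insert_erase jI] at cB')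
  rw [card_erase_of_mem jI, cI] at h5
  have e : m - 2 = m - 2 - 1 + 1 := by omega
  have h6 : (2 * (R / θ) + 3) * (θ * ‖φ‖) ≤ (4 * m * (2 + m) + 3) * W := by
    have : R / θ * (θ * ‖φ‖) = 2 * m * (2 + m) * W := by rw [hR]; field_simp
    nlinarith
  calc _ = (A.card : ℝ) * θ ^ (m - 2 - 1) * (θ * ‖φ‖) := by
        conv_lhs => rw [e, pow_succ]
        ring
    _ ≤ 7 ^ (m - 2 - 1) * ((2 * (R / θ) + 3) * (c * M)) * (θ * ‖φ‖) := by gcongr
    _ = 7 ^ (m - 2 - 1) * c * ((2 * (R / θ) + 3) * (θ * ‖φ‖)) * M := by ring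
    _ ≤ 7 ^ m * c * ((4 * m * (2 + m) + 3) * W) * M := by
        gcongr
        · norm_num
        · omega
    _ = _ := by ring

theorem slab : StmtSLAB := by
  intro m
  refine ⟨14 ^ m * (11 + 4 * m * m), one_le_mul_of_one_le_of_one_le (one_le_pow₀ (by norm_num))
    (by nlinarith [mul_self_nonneg (m : ℝ)]), fun Q W φ k G hS hW hk hφ hG => ?_⟩
  have Q0 : 0 < Q := Nat.pos_of_ne_zero (by rintro rfl; norm_num at hW)
  have Q1 : (1 : ℝ) ≤ Q := by exact_mod_cast Q0
  have W0 : 0 < W := by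
    by_contra! d
    nlinarith
  set θ : ℝ := 1 / (2 * Q) with hθ
  have t0 : 0 < θ := by positivity
  have t1 : θ * (2 * Q) = 1 := by rw [hθ]; field_simp
  have h5 := free t0 (by nlinarith) hS.1 (univ.erase k)
    ((2 * ((2 * W + m * (2 * m) * θ) / θ) + 3) * 1) (by positivity) fun B hB cB =>
      step t0 zero_le_one cB k (by positivity) (fun g hg g' hg' =>
        (le_mul_of_one_le_left (abs_nonneg _) hk).trans (lin t0.le hφ
          (fun j j1 j2 => absurd (mem_erase.2 ⟨j1, mem_univ _⟩) j2) cB (fun g hg => hG g (hB hg))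
            g hg g' hg')) fun B' hB' cB' => by
        rw [insert_erase (mem_univ k)] at cB'
        refine Nat.cast_le_one.2 (card_le_one.2 fun g hg g' hg' => ?_)
        by_contra d
        obtain ⟨j, hj⟩ := hS.2 g (hB (hB' hg)) g' (hB (hB' hg')) d
        have := cB' g hg g' hg' j (mem_univ _)
        nlinarith
  rw [card_erase_of_mem (mem_univ k), card_univ, Fintype.card_fin] at h5
  have e : m = m - 1 + 1 := by have := k.pos; omega
  have h6 : (2 * ((2 * W + m * (2 * m) * θ) / θ) + 3) * 1 ≤ (11 + 4 * m * m) * (W * Q) := by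
    have : (2 * W + m * (2 * m) * θ) / θ = 4 * (W * Q) + 2 * m * m := by rw [hθ]; field_simp; ring
    rw [this]
    nlinarith [mul_self_nonneg (m : ℝ)]
  calc (G.card : ℝ) = G.card * θ ^ (m - 1) * (2 * Q) ^ (m - 1) := by
        rw [mul_assoc, ← mul_pow, t1, one_pow, mul_one]
    _ ≤ 7 ^ (m - 1) * ((11 + 4 * m * m) * (W * Q)) * (2 * Q) ^ (m - 1) :=
        mul_le_mul_of_nonneg_right (h5.trans (mul_le_mul_of_nonneg_left h6 (by positivity)))
          (by positivity)
    _ = 14 ^ (m - 1) * (11 + 4 * m * m) * (Q ^ (m - 1) * Q) * W := by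
        rw [mul_pow, show (14 : ℝ) = 7 * 2 by norm_num, mul_pow]; ring
    _ ≤ _ := by
        rw [← pow_succ, ← e]
        gcongr
        · norm_num
        · omega

end Pool.Agent.MP_5168f5_an.H17
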