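import Pool.Agent.MP_5168f5_an.H17.Trees

/-! Frames, levels of thinness and counting tools. -/

namespace Pool.Agent.MP_5168f5_an.H17.CORE

open Finset Matrix H19 H29 H83 H83.PLANE

variable {m : ℕ}

theorem abs_dot_le {n : ℕ} (u v : V n) : |u ⬝ᵥ v| ≤ n * (‖u‖ * ‖v‖) := by
  refine (Finset.abs_sum_le_sum_abs _ _).trans ?_
  have : ∀ i ∈ (Finset.univ : Finset (Fin n)), |u i * v i| ≤ ‖u‖ * ‖v‖ := fun i _ => by
    rw [abs_mul]
    exact mul_le_mul (norm_le_pi_norm u i) (norm_le_pi_norm v i) (abs_nonneg _) (norm_nonneg _)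
  refine (Finset.sum_le_sum this).trans (le_of_eq ?_)
  simp

theorem norm_cmb_le {ν : V 2} (h : ‖ν‖ = 1) (D : Fr m) : ‖cmb ν D‖ ≤ 2 * ‖D‖ := by
  have a : ∀ r, ‖ν r • D r‖ ≤ ‖D‖ := fun r => by
    rw [norm_smul]
    exact (mul_le_mul ((norm_le_pi_norm ν r).trans h.le) (norm_le_pi_norm D r) (norm_nonneg _)
      zero_le_one).trans (one_mul _).le
  exact (norm_add_le _ _).trans (by linarith [a 0, a 1])

theorem cmb_dot (ν : V 2) (D : Fr m) (z : V (m + 1)) : cmb ν D ⬝ᵥ z = ν ⬝ᵥ act D z := by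
  simp [cmb, act, dotProduct, Fin.sum_univ_two, add_mul,
    Finset.sum_add_distrib, Finset.mul_sum, mul_assoc]

theorem cmb_sub (ν : V 2) (A B : Fr m) : cmb ν (A - B) = cmb ν A - cmb ν B := by
  simp only [cmb, Pi.sub_apply, smul_sub]
  abel

theorem thin_mono {w w' : ℝ} {D : Fr m} (h : Thin w D) (hw : w ≤ w') : Thin w' D :=
  h.imp fun _ a => ⟨a.1, a.2.trans hw⟩

theorem thin_swap {w : ℝ} {A B : Fr m} (h : Thin w (A - B)) : Thin w (B - A) :=
  h.imp fun ν a => ⟨a.1, by rw [cmb_sub, norm_sub_rev, ← cmb_sub]; exact a.2⟩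

theorem thin_of_norm {a : ℝ} {D : Fr m} (h : ‖D‖ ≤ a) : Thin (2 * a) D :=
  ⟨fun _ => 1, by simp, (norm_cmb_le (by simp) D).trans (by linarith)⟩

/-- The dyadic level of thinness above the floor `θ`. -/
noncomputable def tl (θ : ℝ) (D : Fr m) : ℕ := sInf {i : ℕ | Thin (θ * 2 ^ i) D}

theorem tl_le {θ : ℝ} {D : Fr m} {N : ℕ} (h : Thin (θ * 2 ^ N) D) : tl θ D ≤ N := Nat.sInf_le h

theorem thin_tl {θ : ℝ} {D : Fr m} {N : ℕ} (h : Thin (θ * 2 ^ N) D) : Thin (θ * 2 ^ tl θ D) D :=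
  Nat.sInf_mem (s := {i : ℕ | Thin (θ * 2 ^ i) D}) ⟨N, h⟩

theorem tl_low {θ : ℝ} (hθ : 0 ≤ θ) (D : Fr m) :
    θ * 2 ^ tl θ D ≤ 2 * θ ∨ ¬Thin (θ * 2 ^ tl θ D / 2) D := by
  rcases h : tl θ D with _ | i
  · left; simp; linarith
  · right
    have h1 : i ∉ {i : ℕ | Thin (θ * 2 ^ i) D} := Nat.notMem_of_lt_sInf (by unfold tl at h; omega)
    have e : θ * 2 ^ (i + 1) / 2 = θ * 2 ^ i := by ring
    rw [e]; exact h1

/-- Passing to a subgraph of large minimal degree with many edges. -/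
theorem prune' {α ε : Type} (X : Finset α) (E : Finset ε) (src tgt : ε → α) (rev : ε → ε)
    (hX : ∀ e ∈ E, src e ∈ X ∧ tgt e ∈ X) (hr : ∀ e ∈ E, rev e ∈ E) (hrr : ∀ e, rev (rev e) = e)
    (hs : ∀ e, src (rev e) = tgt e) {d : ℝ} (hd : 0 < d) (hne : X.Nonempty)
    (hE : d * X.card ≤ E.card) :
    ∃ X' ⊆ X, X'.Nonempty ∧ ∃ E' ⊆ E, (∀ e ∈ E', src e ∈ X' ∧ tgt e ∈ X' ∧ rev e ∈ E') ∧
      d / 2 * X.card ≤ E'.card ∧ ∀ x ∈ X', ∃ B ⊆ E', (∀ e ∈ B, src e = x) ∧ d / 4 ≤ B.card := by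
  classical
  have ht : ∀ e, tgt (rev e) = src e := fun e => by rw [← hs, hrr]
  set EE : Finset α → Finset ε := fun Z => E.filter fun e => src e ∈ Z ∧ tgt e ∈ Z with hEE
  obtain ⟨Z, hZ, hmax⟩ := Finset.exists_max_image X.powerset
    (fun Z => ((EE Z).card : ℝ) - d / 2 * Z.card) ⟨∅, Finset.empty_mem_powerset _⟩
  have hZX := Finset.mem_powerset.1 hZ
  have h1 : EE X = E := Finset.filter_true_of_mem hX
  have h2 := hmax X (Finset.mem_powerset_self X)
  have h3 : (0 : ℝ) < X.card := by exact_mod_cast hne.card_pos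
  refine ⟨Z, hZX, ?_, EE Z, Finset.filter_subset _ _, ?_, ?_, ?_⟩
  · rcases Z.eq_empty_or_nonempty with rfl | h
    · have : EE ∅ = ∅ := by simp [hEE]
      rw [h1, this] at h2
      simp only [Finset.card_empty, Nat.cast_zero] at h2
      nlinarith
    · exact h
  · intro e he
    obtain ⟨e1, e2, e3⟩ := Finset.mem_filter.1 he
    exact ⟨e2, e3, Finset.mem_filter.2 ⟨hr e e1, by rw [hs, ht]; exact ⟨e3, e2⟩⟩⟩
  · rw [h1] at h2
    have : (0 : ℝ) ≤ d / 2 * Z.card := by positivity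
    linarith
  · intro x hx
    refine ⟨(EE Z).filter fun e => src e = x, Finset.filter_subset _ _,
      fun e he => (Finset.mem_filter.1 he).2, ?_⟩
    have h4 := hmax (Z.erase x) (Finset.mem_powerset.2 ((Finset.erase_subset _ _).trans hZX))
    have h5 : ((Z.erase x).card : ℝ) + 1 = Z.card := by exact_mod_cast Finset.card_erase_add_one hx
    have h6 : ((EE Z).filter fun e => tgt e = x).card ≤ ((EE Z).filter fun e => src e = x).card := by
      refine Finset.card_le_card_of_injOn rev ?_ fun a _ b _ e => by rw [← hrr a, e, hrr]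
      intro e he
      obtain ⟨e0, e4⟩ := Finset.mem_filter.1 he
      obtain ⟨e1, e2, e3⟩ := Finset.mem_filter.1 e0
      exact Finset.mem_filter.2 ⟨Finset.mem_filter.2 ⟨hr e e1, by rw [hs, ht]; exact ⟨e3, e2⟩⟩,
        by rw [hs]; exact e4⟩
    have h7 : EE Z ⊆ EE (Z.erase x) ∪ (((EE Z).filter fun e => src e = x) ∪
        ((EE Z).filter fun e => tgt e = x)) := by
      intro e he
      obtain ⟨e1, e2, e3⟩ := Finset.mem_filter.1 he
      simp only [Finset.mem_union, Finset.mem_filter, hEE, Finset.mem_erase]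
      tauto
    have h8 := (Finset.card_le_card h7).trans ((Finset.card_union_le _ _).trans
      (Nat.add_le_add_left (Finset.card_union_le _ _) _))
    have h9 : ((EE Z).card : ℝ) ≤ (EE (Z.erase x)).card +
        2 * (((EE Z).filter fun e => src e = x).card : ℝ) := by exact_mod_cast (by omega)
    nlinarith

open Classical in
/-- The Cauchy-Schwarz inequality for the fibres of a map. -/
theorem sq_le_pairs {α β : Type} (A : Finset α) (f : α → β) :
    (A.card : ℝ) ^ 2 ≤ (A.image f).card * ((A ×ˢ A).filter fun p => f p.1 = f p.2).card := by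
  have h1 : (A.card : ℝ) = ∑ t ∈ A.image f, ((A.filter fun a => f a = t).card : ℝ) := by
    exact_mod_cast Finset.card_eq_sum_card_image f A
  have h2 : (((A ×ˢ A).filter fun p => f p.1 = f p.2).card : ℝ) =
      ∑ t ∈ A.image f, ((A.filter fun a => f a = t).card : ℝ) ^ 2 := by
    rw [Finset.card_eq_sum_card_fiberwise (f := fun p => f p.1) (t := A.image f) fun p hp =>
      Finset.mem_image_of_mem f (Finset.mem_product.1 (Finset.mem_filter.1 hp).1).1]
    push_cast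
    refine Finset.sum_congr rfl fun t _ => ?_
    rw [sq, ← Nat.cast_mul, ← Finset.card_product]
    refine congrArg _ (congrArg _ (Finset.ext fun p => ?_))
    simp only [Finset.mem_filter, Finset.mem_product]
    constructor
    · rintro ⟨⟨⟨a, b⟩, c⟩, d⟩
      exact ⟨⟨a, d⟩, b, c ▸ d⟩
    · rintro ⟨⟨a, d⟩, b, c⟩
      exact ⟨⟨⟨a, b⟩, d.trans c.symm⟩, d⟩
  rw [h1, h2]
  exact sq_sum_le_card_mul_sum_sq

variable {Q s : ℕ} {K l : ℝ} {G : Finset (Line m)} {X : Finset (Pt m)}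
  {S : Pt m → Finset (Line m)}

theorem mem_prs {L : Pt m → Fr m} {w : ℝ} (hI : Incid Q s G X S) {e : Edge m} :
    e ∈ prs G X S L w ↔ e.2.1 ∈ X ∧ e.2.2 ∈ X ∧ e.1 ∈ S e.2.1 ∧ e.1 ∈ S e.2.2 ∧
      Thin w (L e.2.2 - L e.2.1) := by
  unfold prs
  simp only [Finset.mem_filter, Finset.mem_product]
  exact ⟨fun h => ⟨h.1.2.1, h.1.2.2, h.2⟩, fun h =>
    ⟨⟨((hI _ h.1).2.2 _ h.2.2.1).1, h.1, h.2.1⟩, h.2.2⟩⟩

/-- There are many thin edges. -/
theorem edges' {L : Pt m → Fr m} {w c : ℝ} (hI : Incid Q s G X S) (hc : 0 ≤ c * l)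
    (h2e : ∀ g ∈ G, ∀ t : ℕ, ∀ B ⊆ X, (∀ x ∈ B, g ∈ S x ∧ K * |(x.2 : ℝ) - t| < Q) →
      (B.card : ℝ) ≤ c * l / 4) (hP : c * (s * l * X.card) ≤ (prs G X S L w).card) :
    ∃ E : Finset (Edge m), (∀ e, e ∈ E ↔ IsE Q K X S e ∧ Thin w (L e.2.2 - L e.2.1)) ∧
      3 / 4 * (c * l) * s * X.card ≤ E.card := by
  classical
  refine ⟨(prs G X S L w).filter fun e => (Q : ℝ) ≤ K * |(e.2.1.2 : ℝ) - e.2.2.2|, fun e => ?_, ?_⟩
  · rw [Finset.mem_filter, mem_prs hI]
    unfold IsE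
    tauto
  have h1 := card_split (prs G X S L w) fun e => (Q : ℝ) ≤ K * |(e.2.1.2 : ℝ) - e.2.2.2|
  have h2 : (((prs G X S L w).filter
      fun e => ¬(Q : ℝ) ≤ K * |(e.2.1.2 : ℝ) - e.2.2.2|).card : ℝ) ≤ X.card * (s * (c * l / 4)) := by
    refine fib_bound _ (fun e => e.2.1) (by positivity) (fun T hT => ?_) fun A1 s1 x hx => ?_
    · refine Nat.cast_le.2 (Finset.card_le_card fun y hy => ?_)
      obtain ⟨e, he, rfl⟩ := hT y hy
      exact ((mem_prs hI).1 (Finset.mem_filter.1 he).1).1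
    have m1 := fun e (he : e ∈ A1) => (mem_prs hI).1 (Finset.mem_filter.1 (s1 he)).1
    rcases A1.eq_empty_or_nonempty with rfl | ⟨e0, h0⟩
    · simp only [Finset.card_empty, Nat.cast_zero]; positivity
    have hxX : x ∈ X := hx e0 h0 ▸ (m1 e0 h0).1
    refine fib_bound A1 (fun e => e.1) (by positivity) (fun T hT => card_S hI hxX fun g hg => ?_)
      fun A2 s2 g hg => ?_
    · obtain ⟨e, he, rfl⟩ := hT g hg
      exact hx e he ▸ (m1 e he).2.2.1
    rcases A2.eq_empty_or_nonempty with rfl | ⟨e1, h1⟩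
    · simp only [Finset.card_empty, Nat.cast_zero]; positivity
    have := fib_bound A2 (fun e => e.2.2) (n := c * l / 4) zero_le_one (fun T hT =>
      h2e g (hg e1 h1 ▸ ((hI _ (m1 e1 (s2 h1)).1).2.2 _ (m1 e1 (s2 h1)).2.2.1).1) x.2 T
        (fun y hy => by
          obtain ⟨e, he, rfl⟩ := hT y hy
          exact (m1 e (s2 he)).2.1) fun y hy => by
          obtain ⟨e, he, rfl⟩ := hT y hy
          refine ⟨hg e he ▸ (m1 e (s2 he)).2.2.2.1, ?_⟩
          rw [← hx e (s2 he), abs_sub_comm]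
          exact not_le.1 (Finset.mem_filter.1 (s1 (s2 he))).2) fun D hD y hy =>
      card_le_one' _ fun a ha b hb => Prod.ext ((hg a (hD ha)).trans (hg b (hD hb)).symm)
        (Prod.ext ((hx a (s2 (hD ha))).trans (hx b (s2 (hD hb))).symm)
          ((hy a ha).trans (hy b hb).symm))
    simpa using this
  nlinarith

/-- Edges that start at a given cell. -/
theorem out_sl (hI : Incid Q s G X S) (hl0 : 0 ≤ l)
    (hl : ∀ g ∈ G, ∀ B ⊆ X, (∀ x ∈ B, g ∈ S x) → (B.card : ℝ) ≤ l) {x : Pt m}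
    (B : Finset (Edge m)) (hB : ∀ e ∈ B, IsE Q K X S e ∧ e.2.1 = x) : (B.card : ℝ) ≤ s * l := by
  refine out_le hI hl0 hl B hB fun T' hT' => ?_
  rcases T'.eq_empty_or_nonempty with rfl | ⟨g, hg⟩
  · simp
  obtain ⟨e, he, -⟩ := hT' g hg
  refine card_S hI ((hB e he).2 ▸ (hB e he).1.1) fun g' hg' => ?_
  obtain ⟨e', he', rfl⟩ := hT' g' hg'
  exact (hB e' he').2 ▸ (hB e' he').1.2.2.1

/-- Edges that end at a given cell. -/
theorem in_sl (hI : Incid Q s G X S) (hl0 : 0 ≤ l)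
    (hl : ∀ g ∈ G, ∀ B ⊆ X, (∀ x ∈ B, g ∈ S x) → (B.card : ℝ) ≤ l) {x : Pt m}
    (B : Finset (Edge m)) (hB : ∀ e ∈ B, IsE Q K X S e ∧ e.2.2 = x) : (B.card : ℝ) ≤ s * l := by
  classical
  have h : Function.Injective (rev : Edge m → Edge m) := fun a b e => by
    rw [show a = rev (rev a) from rfl, e]; rfl
  rw [← Finset.card_image_of_injective B h]
  refine out_sl (K := K) (x := x) hI hl0 hl _ fun e he => ?_
  obtain ⟨e', he', rfl⟩ := Finset.mem_image.1 he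
  exact ⟨(hB e' he').1.rev, (hB e' he').2⟩

/-- Walks of length two whose ends on a common line form pairs of `P`. -/
theorem walks_le (hI : Incid Q s G X S) (hl0 : 0 ≤ l)
    (hl : ∀ g ∈ G, ∀ B ⊆ X, (∀ x ∈ B, g ∈ S x) → (B.card : ℝ) ≤ l) (P : Finset (Edge m))
    (W : Finset (Edge m × Edge m))
    (hW : ∀ p ∈ W, IsE Q K X S p.1 ∧ IsE Q K X S p.2 ∧ p.2.2.1 = p.1.2.2)
    (hP : ∀ p ∈ W, ∀ p' ∈ W, p.1 = p'.1 → p.2.1 = p'.2.1 → (p.2.1, p.2.2.2, p'.2.2.2) ∈ P) :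
    (W.card : ℝ) ^ 2 ≤ X.card * (s * l * s) * (P.card * (l * (s * l))) := by
  classical
  refine (sq_le_pairs W fun p => (p.1, p.2.1)).trans (mul_le_mul ?_ ?_ (Nat.cast_nonneg _)
    (by positivity))
  · have m0 : ∀ t ∈ W.image fun p => (p.1, p.2.1), IsE Q K X S t.1 ∧ t.2 ∈ S t.1.2.2 := by
      intro t ht
      obtain ⟨p, hp, rfl⟩ := Finset.mem_image.1 ht
      exact ⟨(hW p hp).1, (hW p hp).2.2 ▸ (hW p hp).2.1.2.2.1⟩
    refine fib_bound _ (fun t => t.1.2.2) (by positivity) (fun T hT => ?_) fun A1 s1 y hy => ?_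
    · refine Nat.cast_le.2 (Finset.card_le_card fun y hy => ?_)
      obtain ⟨t, ht, rfl⟩ := hT y hy
      exact (m0 t ht).1.2.1
    refine fib_bound A1 (fun t => t.1) (by positivity)
      (fun T hT => in_sl (K := K) (x := y) hI hl0 hl T fun e he => ?_) fun A2 s2 e he => ?_
    · obtain ⟨t, ht, rfl⟩ := hT e he
      exact ⟨(m0 t (s1 ht)).1, hy t ht⟩
    rcases A2.eq_empty_or_nonempty with rfl | ⟨t0, h0⟩
    · simp
    have := fib_bound A2 (fun t => t.2) (n := s) zero_le_one (fun T hT =>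
      card_S hI (m0 t0 (s1 (s2 h0))).1.2.1 fun g hg => by
        obtain ⟨t, ht, rfl⟩ := hT g hg
        rw [he t0 h0, ← he t ht]
        exact (m0 t (s1 (s2 ht))).2) fun D hD g hg =>
      card_le_one' _ fun a ha b hb => Prod.ext ((he a (hD ha)).trans (he b (hD hb)).symm)
        ((hg a ha).trans (hg b hb).symm)
    simpa using this
  · have m0 : ∀ p ∈ (W ×ˢ W).filter fun p => (p.1.1, p.1.2.1) = (p.2.1, p.2.2.1),
        p.1 ∈ W ∧ p.2 ∈ W ∧ p.1.1 = p.2.1 ∧ p.1.2.1 = p.2.2.1 := by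
      intro p hp
      obtain ⟨a, b⟩ := Finset.mem_filter.1 hp
      exact ⟨(Finset.mem_product.1 a).1, (Finset.mem_product.1 a).2, Prod.ext_iff.1 b⟩
    refine fib_bound _ (fun p => ((p.1.2.1, p.1.2.2.2, p.2.2.2.2) : Edge m)) (by positivity)
      (fun T hT => ?_) fun A1 s1 t ht => ?_
    · refine Nat.cast_le.2 (Finset.card_le_card fun y hy => ?_)
      obtain ⟨p, hp, rfl⟩ := hT y hy
      obtain ⟨a, b, c, d⟩ := m0 p hp
      exact hP _ a _ b c d
    rcases A1.eq_empty_or_nonempty with rfl | ⟨p0, h0⟩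
    · simp only [Finset.card_empty, Nat.cast_zero]; positivity
    have t1 : ∀ p ∈ A1, p.1.2.1 = t.1 := fun p hp => (Prod.ext_iff.1 (ht p hp)).1
    have i0 := (hW _ (m0 p0 (s1 h0)).1).2.1
    refine fib_bound A1 (fun p => p.1.1.2.2) (by positivity) (fun T hT =>
      hl t.1 (t1 p0 h0 ▸ ((hI _ i0.1).2.2 _ i0.2.2.1).1) T (fun y hy => ?_) fun y hy => ?_)
      fun A2 s2 y hy => ?_
    · obtain ⟨p, hp, rfl⟩ := hT y hy
      exact (hW _ (m0 p (s1 hp)).1).1.2.1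
    · obtain ⟨p, hp, rfl⟩ := hT y hy
      rw [← t1 p hp, ← (hW _ (m0 p (s1 hp)).1).2.2]
      exact (hW _ (m0 p (s1 hp)).1).2.1.2.2.1
    have := fib_bound A2 (fun p => p.1.1) (n := s * l) zero_le_one (fun T hT =>
      in_sl (K := K) (x := y) hI hl0 hl T fun e he => by
        obtain ⟨p, hp, rfl⟩ := hT e he
        exact ⟨(hW _ (m0 p (s1 (s2 hp))).1).1, hy p hp⟩) fun D hD e he => by
      have key : ∀ p ∈ D, p = ((e, t.1, y, t.2.1), (e, t.1, y, t.2.2)) := fun p hp => by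
        have a2 := hD hp
        obtain ⟨a, b, c, d⟩ := m0 p (s1 (s2 a2))
        have q := Prod.ext_iff.1 (Prod.ext_iff.1 (ht p (s2 a2))).2
        exact Prod.ext (Prod.ext (he p hp) (Prod.ext (t1 p (s2 a2))
          (Prod.ext ((hW _ a).2.2.trans (hy p a2)) q.1)))
          (Prod.ext (c ▸ he p hp) (Prod.ext (d ▸ t1 p (s2 a2))
          (Prod.ext ((hW _ b).2.2.trans (c ▸ hy p a2)) q.2)))
      exact card_le_one' _ fun a ha b hb => (key a ha).trans (key b hb).symm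
    simpa using this

end Pool.Agent.MP_5168f5_an.H17.CORE
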