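import Pool.Agent.MP_5168f5_an.H17.Spec
import Pool.Agent.MP_5168f5_an.H83.GAIN

/-! The gain for two-ended shadings in every dimension. -/

namespace Pool.Agent.MP_5168f5_an.H17

open MeasureTheory Metric Finset Matrix H19 H29 H42 H83
open scoped ENNReal

namespace GAIN

theorem num {m : ℕ} (hm : 3 ≤ m) {d0 : ℝ} (h3 : 3 ≤ d0) (h4 : d0 < 4)
    (hq : (m : ℝ) - 1 < 2 * (m + 1 - d0) + (m + 1 - d0 - m / (m + 1)) * (4 - d0)) :
    ∃ σ α γ : ℝ, 0 < γ ∧ γ ≤ 1 ∧ σ ≤ 1 ∧ 0 ≤ α ∧ ∀ d, d ≤ d0 → ∀ x y, 0 ≤ y → y ≤ x →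
      (0 < σ * x - α * y → (m + (m + 1) * (σ + γ)) * x + (m ^ 2 + 2 * m + 2 - (m + 1) * α) * y ≤
        (m + 1) * ((m + 1 - d) * x + (d - 1) * y)) ∧
      ∀ H, 0 ≤ H → σ * x - α * y ≤ H →
        ((m : ℝ) - 1 + 3 * γ) * x ≤ 2 * (m + 1 - d) * x + (4 - d) * H + (2 * d - 4) * y := by
  rcases (by omega : m = 3 ∨ m = 4 ∨ 5 ≤ m) with rfl | rfl | h5
  · push_cast at hq ⊢
    obtain ⟨σ, γ, g0, g1, s1, h⟩ := H83.GAIN.num (m0 := 4 - d0) (by linarith) (by linarith)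
      (by nlinarith)
    refine ⟨σ, 9 / 4, γ, g0, g1, s1, by norm_num, fun d hd x y hy hx => ?_⟩
    obtain ⟨a1, a2⟩ := (h (4 - d) (by linarith)).2 x y hy hx
    exact ⟨fun _ => by linarith, fun H b1 b2 => by linarith [a2 H b1 b2]⟩
  · push_cast at hq ⊢
    obtain ⟨u, u1, u2, u3, u4⟩ : ∃ u : ℝ, 1 < u ∧ u ≤ 3 / 2 ∧ u ≤ 5 - d0 ∧
        0 < u ^ 2 + u / 5 - 11 / 5 := by
      rcases le_total (5 - d0) (3 / 2) with h | h
      · exact ⟨5 - d0, by linarith, h, le_rfl, by nlinarith⟩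
      · exact ⟨3 / 2, by norm_num, le_rfl, h, by norm_num⟩
    obtain ⟨γ, hγ⟩ : ∃ γ, γ = (u ^ 2 + u / 5 - 11 / 5) / 4 := ⟨_, rfl⟩
    have g0 : 0 < γ := by linarith
    have a1 : 3 + 3 * γ ≤ 2 * u + (u - 1) * (u - 4 / 5 - γ) := by
      nlinarith [mul_nonneg g0.le (sub_nonneg.2 u2)]
    refine ⟨u - 4 / 5 - γ, 3, γ, g0, by nlinarith, by linarith, by norm_num,
      fun d hd x y hy hx => ?_⟩
    have b1 := mul_nonneg (show 0 ≤ 5 - d - u by linarith) (sub_nonneg.2 hx)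
    have b2 := mul_nonneg (sub_nonneg.2 u2) hy
    refine ⟨fun _ => by linarith, fun H c1 c2 => ?_⟩
    have b3 := mul_nonneg (show 0 ≤ 5 - d - u by linarith) c1
    have b4 := mul_le_mul_of_nonneg_left c2 (sub_nonneg.2 u1.le)
    have b5 := mul_le_mul_of_nonneg_right a1 (hy.trans hx)
    linarith
  · have h6 : (5 : ℝ) ≤ m := by exact_mod_cast h5
    obtain ⟨γ, g0, g1, g2⟩ : ∃ γ : ℝ, 0 < γ ∧ γ ≤ 1 ∧ 3 * γ ≤ m + 3 - 2 * d0 :=
      ⟨min 1 ((m + 3 - 2 * d0) / 3), lt_min one_pos (by linarith), min_le_left _ _,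
        by linarith [min_le_right 1 ((m + 3 - 2 * d0) / 3)]⟩
    refine ⟨0, 0, γ, g0, g1, zero_le_one, le_rfl, fun d hd x y hy hx =>
      ⟨fun h => absurd h (by simp), fun H c1 _ => ?_⟩⟩
    have b1 := mul_nonneg (show 0 ≤ m + 3 - 2 * d - 3 * γ by linarith) (sub_nonneg.2 hx)
    have b2 := mul_nonneg (show 0 ≤ m - 1 - 3 * γ by linarith) hy
    have b3 := mul_nonneg (show 0 ≤ 4 - d by linarith) c1
    linarith

theorem lg {m i : ℕ} (hm : 1 ≤ m) {Q : ℝ} (hQ : 1 ≤ Q) (h : (2 : ℝ) ^ i ≤ 5 ^ m * Q ^ m) :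
    (i : ℝ) + 1 ≤ 4 * m * (1 + Real.log Q) := by
  have h1 := Real.log_le_log (by positivity)
    (h.trans (by gcongr; norm_num : 5 ^ m * Q ^ m ≤ (2 ^ 3) ^ m * Q ^ m))
  rw [Real.log_mul (by positivity) (by positivity), Real.log_pow, Real.log_pow, Real.log_pow,
    Real.log_pow] at h1
  have h2 := Real.log_two_gt_d9
  have h3 := Real.log_nonneg hQ
  have h5 : (1 : ℝ) ≤ m := by exact_mod_cast hm
  have h6 := mul_nonneg (zero_le_one.trans h5) h3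
  push_cast at h1
  by_contra h4
  have h7 : 3 * m + 4 * (m * Real.log Q) < i := by linarith [not_le.1 h4]
  nlinarith [mul_lt_mul_of_pos_right h7 (show 0 < Real.log 2 by linarith)]

/-- At scale one every set of lines is planar. -/
theorem flat {m : ℕ} (hm : 2 ≤ m) : ∃ (ι : Fin 2 → Fin m) (L : Fr m), Frame ι L ∧
    ∀ B : Finset (Line m), (∀ g ∈ B, ∀ k, |g.2 k| ≤ 1) → Pl 1 L B := by
  have h1 : (1 : ℝ) ≤ m := by exact_mod_cast (by omega : 1 ≤ m)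
  refine ⟨Fin.castLE hm, fun r => Pi.single (Fin.castLE hm r).succ 1, ⟨fun r r' => ?_, ?_⟩,
    fun B hB g hg => ?_⟩
  · by_cases h : r = r'
    · subst h
      simp
    · rw [if_neg h]
      exact Pi.single_eq_of_ne (fun e => h (Fin.castLE_injective hm (Fin.succ_injective _ e)).symm) _
  · refine (pi_norm_le_iff_of_nonneg (by linarith)).2 fun r => ?_
    rw [Pi.norm_single, norm_one]
    exact h1
  · refine (pi_norm_le_iff_of_nonneg zero_le_one).2 fun r => ?_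
    have e : act (fun r => Pi.single (Fin.castLE hm r).succ 1) (dv g) r =
        g.2 (Fin.castLE hm r) := by
      unfold act
      rw [single_dotProduct, one_mul]
      rfl
    rw [e]
    exact hB g hg _

/-- The three alternatives for the degree. -/
theorem core {m Q j n : ℕ} {l R K Mk Mf Mn C3 θ T : ℝ} {G : Finset (Line m)} {E : Finset (Pt m)}
    {Y : Line m → Finset ℕ} (hm : 2 ≤ m) (hG : Sep Q G) (hne : G.Nonempty) (hl : 0 < l)
    (hR : 1 ≤ R) (hY : ∀ g ∈ G, ∀ t ∈ Y g, t < Q ∧ (cell g t, t) ∈ E)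
    (h2l : ∀ g ∈ G, ((Y g).card : ℝ) ≤ 2 * l) (hs : l * G.card / 2 ≤ ∑ g ∈ G, ((Y g).card : ℝ))
    (hLg : 16 * ((Nat.log 2 G.card : ℝ) + 1) ≤ R) (hmR : (m : ℝ) ^ 2 ≤ R)
    (he : ∀ g ∈ G, ∀ t : ℕ, ∀ B ⊆ Y g, (∀ s ∈ B, K * |(s : ℝ) - t| < Q) →
      (B.card : ℝ) ≤ 1 / R ^ n * (2 * l) / 4)
    (hk : ∀ x, Cap (1 / K) Mk (thru G id Y x)) (hf : ∀ x, Cap (1 / 2 ^ j) Mf (thru G id Y x))
    (h3 : 0 < C3) (h3' : C3 ≤ R ^ 2) (hN : R ^ (n + 2) * Mn ≤ T)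
    (hT : 1 ≤ j → ∀ (s : ℕ) (X : Finset (Pt m)) (S : Pt m → Finset (Line m)),
      Incid Q s G X S → X.Nonempty → 0 < s → l / R * G.card ≤ s * X.card →
      (∀ x ∈ X, Rob (1 / C3) θ (S x)) → (s : ℝ) ≤ T)
    (hGeo : ∀ B : Finset (Line m), (∀ g ∈ B, ∀ k, |g.2 k| ≤ 1) → Cap (1 / K) Mk B →
      Mn < B.card → (∀ (ι : Fin 2 → Fin m) (L : Fr m), Frame ι L → ¬Pl (1 / 2 ^ j) L B) → Tri θ B)
    (hPl : ∀ (s : ℕ) (X : Finset (Pt m)) (S : Pt m → Finset (Line m)) (ι : Fin 2 → Fin m)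
      (L : Pt m → Fr m), Incid Q s G X S → X.Nonempty → 0 < s →
      (∀ x ∈ X, Frame ι (L x) ∧ Pl (1 / 2 ^ j) (L x) (S x) ∧ Cap (1 / K) Mk (S x) ∧
        Cap (1 / 2 ^ j) Mf (S x)) →
      (∀ g ∈ G, ∀ B ⊆ X, (∀ x ∈ B, g ∈ S x) → (B.card : ℝ) ≤ 2 * l) →
      1 / R ^ 4 * (2 * l) * G.card ≤ s * X.card →
      (∀ g ∈ G, ∀ t : ℕ, ∀ B ⊆ X, (∀ x ∈ B, g ∈ S x ∧ K * |(x.2 : ℝ) - t| < Q) →
        (B.card : ℝ) ≤ 1 / R ^ n * (2 * l) / 4) →
      Mn ≤ 1 / R ^ n * s → (s : ℝ) * R ^ 2 ≤ T) :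
    l * G.card ≤ R * T * E.card := by
  classical
  obtain ⟨i, X, hXE, hX, h1⟩ := H83.GAIN.pigeon fun g hg t ht => (hY g hg t ht).2
  obtain ⟨s, hs0⟩ : ∃ s : ℝ, s = 2 ^ i := ⟨_, rfl⟩
  have hsp : 0 < s := by rw [hs0]; positivity
  have hR0 : 0 < R := by linarith
  have hlG : 0 < l * G.card := mul_pos hl (by exact_mod_cast hne.card_pos)
  have h2 : 4 * (l * G.card) ≤ R * s * X.card := by
    have := mul_le_mul_of_nonneg_right hLg (by positivity : 0 ≤ s * X.card)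
    rw [← hs0] at h1
    nlinarith
  have hXc : (X.card : ℝ) ≤ E.card := by exact_mod_cast card_le_card hXE
  suffices hsT : s ≤ T from
    calc l * G.card ≤ R * s * X.card := by linarith
      _ ≤ R * s * E.card := by gcongr
      _ ≤ _ := by gcongr
  by_contra hn
  have hn' : Mn < s / R ^ 2 / R ^ n := by
    rw [lt_div_iff₀ (by positivity), lt_div_iff₀ (by positivity)]
    have : Mn * R ^ n * R ^ 2 = R ^ (n + 2) * Mn := by ring
    linarith [not_le.1 hn]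
  refine hn ?_
  have hinc : ∀ (n : ℕ) (X' : Finset (Pt m)) (S : Pt m → Finset (Line m)), 0 < n →
      (∀ x ∈ X', S x ⊆ thru G id Y x ∧ (S x).card = n) → Incid Q n G X' S :=
    fun n X' S hn h x hx => by
      obtain ⟨g, hg⟩ : (S x).Nonempty := card_pos.1 (by rw [(h x hx).2]; exact hn)
      obtain ⟨a1, a2, -⟩ := mem_thru.1 ((h x hx).1 hg)
      exact ⟨(hY g a1 _ a2).1, (h x hx).2, fun g hg =>
        ⟨(mem_thru.1 ((h x hx).1 hg)).1, (mem_thru.1 ((h x hx).1 hg)).2.2⟩⟩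
  obtain ⟨p, hp⟩ : ∃ p : Pt m → Prop, ∀ x, p x ↔ ∃ (ι : Fin 2 → Fin m) (L : Fr m)
    (B : Finset (Line m)), Frame ι L ∧ B ⊆ thru G id Y x ∧ s / R ^ 2 ≤ B.card ∧
      Pl (1 / 2 ^ j) L B := ⟨_, fun _ => Iff.rfl⟩
  have hsp2 : 0 < s / R ^ 2 := by positivity
  have hsplit : ((X.filter p).card : ℝ) + (X.filter fun x => ¬ p x).card = X.card := by
    exact_mod_cast card_filter_add_card_filter_not p
  have hne' : ∀ (u : ℝ) (X' : Finset (Pt m)), 2 * (l * G.card) ≤ u * X'.card → X'.Nonempty :=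
    fun u X' h => X'.eq_empty_or_nonempty.resolve_left fun h0 => by
      rw [h0, card_empty, Nat.cast_zero, mul_zero] at h
      linarith
  obtain ⟨ι0, L0, f1, f2⟩ := flat hm
  rcases le_total (X.card : ℝ) (2 * (X.filter p).card) with h4 | h4
  · have h5 : 2 * (l * G.card) ≤ R * s * (X.filter p).card := by
      nlinarith [mul_le_mul_of_nonneg_left h4 (mul_pos hR0 hsp).le]
    have h6 : ∀ x, ∃ (ι : Fin 2 → Fin m) (L : Fr m) (S : Finset (Line m)), p x → Frame ι L ∧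
        S ⊆ thru G id Y x ∧ S.card = ⌈s / R ^ 2⌉₊ ∧ Pl (1 / 2 ^ j) L S := fun x => by
      by_cases hx : p x
      · obtain ⟨ι, L, B, b1, b3, b4, b5⟩ := (hp x).1 hx
        obtain ⟨S, b6, b7⟩ := exists_subset_card_eq (Nat.ceil_le.2 b4)
        exact ⟨ι, L, S, fun _ => ⟨b1, b6.trans b3, b7, fun g hg => b5 g (b6 hg)⟩⟩
      · exact ⟨ι0, L0, ∅, fun h => absurd h hx⟩
    choose ι L S hS using h6
    obtain ⟨c, -, X', d1, d2, d3⟩ := exists_fib (X.filter p) ι univ ⟨ι0, mem_univ _⟩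
      (fun _ => 1) fun _ _ => mem_univ _
    rw [sum_const, sum_const, nsmul_eq_mul, nsmul_eq_mul, mul_one, mul_one, card_univ,
      Fintype.card_fun, Fintype.card_fin, Fintype.card_fin, Nat.cast_pow] at d3
    have h8 : 2 * (l * G.card) ≤ R * s * R * X'.card :=
      calc _ ≤ R * s * (X.filter p).card := h5
        _ ≤ R * s * ((m : ℝ) ^ 2 * X'.card) := by gcongr
        _ ≤ R * s * (R * X'.card) := by gcongr
        _ = _ := by ring
    have hS' := fun x (hx : x ∈ X') => hS x (mem_filter.1 (d1 hx)).2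
    have hI := hinc _ _ S (Nat.ceil_pos.2 hsp2) fun x hx => ⟨(hS' x hx).2.1, (hS' x hx).2.2.1⟩
    have hce := Nat.le_ceil (s / R ^ 2)
    have him : ∀ g ∈ G, ∀ B ⊆ X', (∀ x ∈ B, g ∈ S x) →
        (B.image fun x => x.2).card = B.card ∧ (B.image fun x => x.2) ⊆ Y g := fun g _ B hB h =>
      ⟨card_image_of_injOn fun x hx y hy e => hI.eq_of (hB hx) (hB hy) (h x hx) (h y hy) e,
        image_subset_iff.2 fun x hx => (mem_thru.1 ((hS' x (hB hx)).2.1 (h x hx))).2.1⟩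
    have h7 := hPl _ _ S c L hI (hne' _ _ h8) (Nat.ceil_pos.2 hsp2)
      (fun x hx => ⟨(d2 x (d1 hx)).1 hx ▸ (hS' x hx).1, (hS' x hx).2.2.2,
        (hk x).mono (hS' x hx).2.1, (hf x).mono (hS' x hx).2.1⟩)
      (fun g hg B hB h => by
        rw [← (him g hg B hB h).1]
        exact (Nat.cast_le.2 (card_le_card (him g hg B hB h).2)).trans (h2l g hg))
      (by
        refine le_trans ?_ (mul_le_mul_of_nonneg_right hce (Nat.cast_nonneg _))
        calc 1 / R ^ 4 * (2 * l) * G.card = 2 * (l * G.card) / R ^ 4 := by ring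
          _ ≤ R * s * R * X'.card / R ^ 4 := by gcongr
          _ = _ := by field_simp)
      (fun g hg t B hB h => by
        obtain ⟨b1, b2⟩ := him g hg B hB fun x hx => (h x hx).1
        rw [← b1]
        exact he g hg t _ b2 (forall_mem_image.2 fun x hx => (h x hx).2))
      (calc Mn ≤ s / R ^ 2 / R ^ n := hn'.le
        _ ≤ ⌈s / R ^ 2⌉₊ / R ^ n := by gcongr
        _ = _ := by ring)
    exact ((div_le_iff₀ (by positivity)).1 hce).trans h7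
  · have h5 : 2 * (l * G.card) ≤ R * s * (X.filter fun x => ¬ p x).card := by
      nlinarith [mul_le_mul_of_nonneg_left (show (X.card : ℝ) ≤
        2 * (X.filter fun x => ¬ p x).card by linarith) (mul_pos hR0 hsp).le]
    have hsR : s / R ^ 2 ≤ s := div_le_self hsp.le (one_le_pow₀ hR)
    have hj : 1 ≤ j := by
      by_contra h6
      obtain rfl : j = 0 := by omega
      obtain ⟨x, hx⟩ := hne' _ _ h5
      refine (mem_filter.1 hx).2 ((hp x).2 ⟨ι0, L0, _, f1, subset_rfl, hsR.trans ?_, ?_⟩)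
      · rw [hs0]
        exact_mod_cast hX x (mem_filter.1 hx).1
      · rw [pow_zero, div_one]
        exact f2 _ fun g hg => hG.1 g (mem_thru.1 hg).1
    have h6 : ∀ x, ∃ S : Finset (Line m), x ∈ X → S ⊆ thru G id Y x ∧ S.card = 2 ^ i := fun x => by
      by_cases hx : x ∈ X
      · obtain ⟨S, b⟩ := exists_subset_card_eq (hX x hx)
        exact ⟨S, fun _ => b⟩
      · exact ⟨∅, fun h => absurd h hx⟩
    choose S hS using h6
    have e : ((2 ^ i : ℕ) : ℝ) = s := by rw [hs0]; push_cast; rfl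
    rw [← e]
    refine hT hj (2 ^ i) _ S
      (hinc _ _ S (Nat.two_pow_pos i) fun x hx => hS x (mem_filter.1 hx).1) (hne' _ _ h5)
      (Nat.two_pow_pos i) (by
        rw [e, div_mul_eq_mul_div, div_le_iff₀ hR0]
        linarith) fun x hx B hB hc => ?_
    obtain ⟨b1, b2⟩ := hS x (mem_filter.1 hx).1
    have b3 : s / R ^ 2 ≤ B.card := by
      rw [b2, e, one_div_mul_eq_div] at hc
      exact le_trans (by gcongr) hc
    exact hGeo B (fun g hg => hG.1 g (mem_thru.1 (b1 (hB hg))).1) ((hk x).mono (hB.trans b1))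
      (hn'.trans_le ((div_le_self hsp2.le (one_le_pow₀ hR)).trans b3))
      fun ι L b4 b6 => (mem_filter.1 hx).2 ((hp x).2 ⟨ι, L, B, b4, hB.trans b1, b3, b6⟩)

theorem mb {m : ℕ} {C Q l δ d x y r a K : ℝ} (hQ : Q = Real.exp x) (hl : l = Real.exp (x - y))
    (hr : Q ^ δ = Real.exp r) (hK : K = Real.exp a) (hC : C ≤ Real.exp r) :
    C * Q ^ δ * (Q / K) ^ ((m : ℝ) + 1 - d) * (Q / l) ^ (d - 1) ≤
      Real.exp (2 * r + (m + 1 - d) * (x - a) + (d - 1) * y) := by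
  rw [hr, hQ, hl, hK, ← Real.exp_sub, ← Real.exp_sub, ← Real.exp_mul, ← Real.exp_mul]
  calc _ ≤ Real.exp r * Real.exp r * Real.exp ((x - a) * ((m : ℝ) + 1 - d)) *
        Real.exp ((x - (x - y)) * (d - 1)) := by gcongr
    _ = _ := by
      rw [← Real.exp_add, ← Real.exp_add, ← Real.exp_add]
      exact congrArg Real.exp (by ring)

/-- The planar alternative in logarithmic form. -/
theorem finP {m n : ℕ} (hm : 3 ≤ m) {s l K Q P J x y r k h ρ C Lg f t : ℝ} (hs : 0 < s)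
    (hl : l = Real.exp (x - y)) (hQ : Q = Real.exp x) (hK : K = Real.exp k) (hP : P = Real.exp h)
    (hC : C ≤ Real.exp r) (hJ0 : 0 ≤ J) (hJ : J ≤ Real.exp r) (hL0 : 0 ≤ Lg)
    (hL : Lg ≤ Real.exp r)
    (h1 : s ^ 3 * (2 * l) ^ 2 * (1 / Real.exp r ^ n) ^ 5 ≤ C * J ^ 11 * K ^ (3 * m + 5) *
      Real.exp ρ * Q ^ (m + 1) * Lg * P ^ (m - 3) * Real.exp f)
    (ht : (5 * n + 19) * r + (3 * m + 5) * k + ρ + (m - 1) * x + 2 * y + (m - 3) * h + f ≤ 3 * t) :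
    s * Real.exp r ^ 2 ≤ Real.exp t := by
  obtain ⟨a, rfl⟩ : ∃ a, s = Real.exp a := ⟨_, (Real.exp_log hs).symm⟩
  subst hl hQ hK hP
  have h2 : Real.exp a ^ 3 * Real.exp (x - y) ^ 2 * (1 / Real.exp r ^ n) ^ 5 ≤
      Real.exp r * Real.exp r ^ 11 * Real.exp k ^ (3 * m + 5) * Real.exp ρ *
        Real.exp x ^ (m + 1) * Real.exp r * Real.exp h ^ (m - 3) * Real.exp f :=
    le_trans (by
      gcongr
      linarith [Real.exp_pos (x - y)]) (h1.trans (by gcongr))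
  simp only [one_div, ← Real.exp_neg, ← Real.exp_nat_mul, ← Real.exp_add, Real.exp_le_exp] at h2 ⊢
  push_cast [Nat.cast_sub hm] at h2 ⊢
  linarith

/-- The transversal alternative in logarithmic form. -/
theorem finT {m : ℕ} (hm : 2 ≤ m) {s l K Q P x y r k h C t : ℝ} (hs : 0 < s)
    (hl : l = Real.exp (x - y)) (hQ : Q = Real.exp x) (hK : K = Real.exp k) (hP : P = Real.exp h)
    (hC : C ≤ Real.exp r ^ 2)
    (h1 : (s * (1 / P / K ^ (m - 2))) ^ (m + 1) * (l / Real.exp r) ^ (m ^ 2 + 2 * m + 2) ≤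
      C * Q ^ (m ^ 2 + 3 * m + 2))
    (ht : (m + 1) * h + (m + 1) * ((m - 2) * k) + m * x + (m ^ 2 + 2 * m + 2) * y +
      (m ^ 2 + 2 * m + 4) * r ≤ (m + 1) * t) : s ≤ Real.exp t := by
  obtain ⟨a, rfl⟩ : ∃ a, s = Real.exp a := ⟨_, (Real.exp_log hs).symm⟩
  subst hl hQ hK hP
  have h2 := h1.trans (mul_le_mul_of_nonneg_right hC (by positivity))
  simp only [one_div, ← Real.exp_neg, ← Real.exp_nat_mul, ← Real.exp_add, ← Real.exp_sub,
    Real.exp_le_exp] at h2 ⊢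
  push_cast [Nat.cast_sub hm] at h2
  exact le_of_mul_le_mul_left (by linarith) (show (0 : ℝ) < m + 1 by positivity)

/-- The linear inequalities between the exponents. -/
theorem lin {m n x y r k h H κ c γ σ α d d0 η ρ : ℝ} (m3 : 3 ≤ m) (n0 : 0 ≤ n) (x0 : 0 ≤ x)
    (r0 : 0 ≤ r) (κ0 : 0 ≤ κ) (g1 : γ ≤ 1) (hκ : (3 * m + 5) * κ = γ)
    (hc : c = (4 - d0) * κ / 2) (h3 : 3 ≤ d0) (h4 : d0 ≤ 4) (d1 : 1 ≤ d) (d2 : d ≤ d0)
    (e0 : 0 ≤ η) (e1 : η ≤ 1) (rη : (5 * n + m + 30) * r = η * (c * x)) (hρ : 2 ≤ ρ * γ)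
    (k0 : 0 ≤ k) (k1 : k ≤ κ * x) (k3 : κ * x - r ≤ k) (h2 : H - r ≤ h) :
    k ≤ x ∧ r + x ≤ ρ * (γ * x) ∧ r + n * r ≤ k * η ∧
    (n + 2) * r + (2 * r + (m - 3) * k + (2 * r + (m + 1 - d) * (x - k) + (d - 1) * y)) ≤
      (m + 1 - d) * x + (d - 1) * y - c * x - r ∧
    (h ≤ σ * x - α * y → (m + (m + 1) * (σ + γ)) * x + (m ^ 2 + 2 * m + 2 - (m + 1) * α) * y ≤
      (m + 1) * ((m + 1 - d) * x + (d - 1) * y) →
      (m + 1) * h + (m + 1) * ((m - 2) * k) + m * x + (m ^ 2 + 2 * m + 2) * y +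
        (m ^ 2 + 2 * m + 4) * r ≤ (m + 1) * ((m + 1 - d) * x + (d - 1) * y - c * x - r)) ∧
    ((m - 1 + 3 * γ) * x ≤ 2 * (m + 1 - d) * x + (4 - d) * H + (2 * d - 4) * y →
      (5 * n + 19) * r + (3 * m + 5) * k + γ * x + (m - 1) * x + 2 * y + (m - 3) * h +
        (2 * r + (m + 1 - d) * (x - h) + (d - 1) * y) ≤
        3 * ((m + 1 - d) * x + (d - 1) * y - c * x - r)) := by
  have nr : 0 ≤ n * r := mul_nonneg n0 r0
  have mr := mul_le_mul_of_nonneg_right m3 r0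
  have kx : 0 ≤ κ * x := mul_nonneg κ0 x0
  have gx1 : γ * x ≤ x := mul_le_of_le_one_left x0 g1
  have gk : (3 * m + 5) * (κ * x) = γ * x := by rw [← hκ]; ring
  have mk := mul_le_mul_of_nonneg_right m3 kx
  have ck : 2 * (c * x) = (4 - d0) * (κ * x) := by rw [hc]; ring
  have cx : 0 ≤ c * x := by linarith [mul_nonneg (sub_nonneg.2 h4) kx]
  have ck1 : 2 * (c * x) ≤ κ * x := ck.trans_le (mul_le_of_le_one_left kx (by linarith))
  have rc : (5 * n + m + 30) * r ≤ c * x := rη.trans_le (mul_le_of_le_one_left cx e1)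
  refine ⟨by linarith, by linarith [mul_le_mul_of_nonneg_right hρ x0], ?_, ?_, fun p1 p2 => ?_,
    fun p1 => ?_⟩
  · have := mul_le_mul_of_nonneg_left k3 e0
    have := mul_le_of_le_one_left r0 e1
    have := mul_le_mul_of_nonneg_left (show c * x ≤ κ * x by linarith) e0
    linarith
  · have := mul_le_mul_of_nonneg_right d2 k0
    have := mul_le_mul_of_nonneg_left k3 (sub_nonneg.2 h4)
    have := mul_le_mul_of_nonneg_right h3 r0
    linarith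
  · have p3 := mul_le_mul_of_nonneg_left k1 (show 0 ≤ m - 2 by linarith)
    have p4 := mul_le_mul_of_nonneg_left (show h + (m - 2) * k + (m + 4) * r + c * x ≤
      σ * x - α * y + γ * x by linarith) (show 0 ≤ m + 1 by linarith)
    linarith
  · have p2 := mul_le_mul_of_nonneg_left h2 (show 0 ≤ 4 - d by linarith)
    have p3 := mul_le_mul_of_nonneg_left k1 (show 0 ≤ 3 * m + 5 by linarith)
    have p4 := mul_le_mul_of_nonneg_right d1 r0
    linarith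

/-- The logarithmic losses. -/
theorem logs {m i j : ℕ} {Q R C : ℝ} (hm : 3 ≤ m) (hQ : 1 ≤ Q) (hC : 0 ≤ C)
    (hR : (64 * m ^ 2 + C) * (1 + Real.log Q) ≤ R) (hi : (2 : ℝ) ^ i ≤ 5 ^ m * Q ^ m)
    (hj : (2 : ℝ) ^ j ≤ Q) : 16 * ((i : ℝ) + 1) ≤ R ∧ (j : ℝ) + 1 ≤ R ∧
      0 ≤ 1 + Real.log (2 * Q + 1) ∧ 1 + Real.log (2 * Q + 1) ≤ R := by
  have m3 : (3 : ℝ) ≤ m := by exact_mod_cast hm
  have x0 := Real.log_nonneg hQ
  have hR1 : 64 * m * (1 + Real.log Q) ≤ R := le_trans (by gcongr; nlinarith) hR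
  have mx := mul_le_mul_of_nonneg_right m3 x0
  have h1 := lg (by omega) hQ hi
  have h2 := lg (m := 1) le_rfl hQ (i := j) (by linarith)
  have h5 := Real.log_le_log (by linarith) (show 2 * Q + 1 ≤ 3 * Q by linarith)
  rw [Real.log_mul (by norm_num) (by linarith)] at h5
  push_cast at h2
  exact ⟨by linarith, by linarith,
    by linarith [Real.log_nonneg (show (1 : ℝ) ≤ 2 * Q + 1 by linarith)],
    by linarith [Real.log_le_sub_one_of_pos (show (0 : ℝ) < 3 by norm_num)]⟩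

theorem psi {ρ : ℕ} {R C J : ℝ} (hC : 0 < C) (hJ : 0 < J) (h1 : C ≤ R) (h2 : J ≤ R) :
    1 / R ^ (9 * 4 ^ ρ) ≤ (1 / R ^ 4 / (C * J ^ 4)) ^ 4 ^ ρ := by
  have hR : 0 < R := hC.trans_le h1
  rw [pow_mul, ← _root_.one_div_pow]
  refine pow_le_pow_left₀ (by positivity) ?_ _
  calc 1 / R ^ 9 = 1 / R ^ 4 / (R * R ^ 4) := by field_simp
    _ ≤ _ := by gcongr

theorem tail {n : ℕ} {l r k η K : ℝ} (hl : 0 ≤ l) (hK : K = Real.exp k) (hR : 28 ≤ Real.exp r)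
    (h : r + n * r ≤ k * η) : 7 * (2 * l * (1 / K) ^ η) ≤ 1 / Real.exp r ^ n * (2 * l) / 4 := by
  have h5 : 28 * Real.exp r ^ n ≤ Real.exp k ^ η := by
    calc _ ≤ Real.exp r * Real.exp r ^ n := by gcongr
      _ ≤ _ := by
        rw [← Real.exp_nat_mul, ← Real.exp_add, ← Real.exp_mul, Real.exp_le_exp]
        exact h
  rw [hK, one_div, Real.inv_rpow (by positivity)]
  calc _ ≤ 7 * (2 * l * (28 * Real.exp r ^ n)⁻¹) := by gcongr
    _ = _ := by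
      field_simp
      ring

theorem last {m : ℕ} {l Q a b x y r d c : ℝ} (hl : l = Real.exp (x - y)) (hQ : Q = Real.exp x)
    (hb : 0 ≤ b) (c0 : 0 ≤ c) (y0 : 0 ≤ y)
    (h : l * a ≤ Real.exp r * Real.exp ((m + 1 - d) * x + (d - 1) * y - c * x - r) * b) :
    a * l ^ (d + c) ≤ Q ^ m * b := by
  have e1 : l ^ (d + c) = l * Real.exp ((x - y) * (d - 1 + c)) := by
    rw [hl, ← Real.exp_mul, ← Real.exp_add]
    exact congrArg Real.exp (by ring)
  calc _ = l * a * Real.exp ((x - y) * (d - 1 + c)) := by rw [e1]; ring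
    _ ≤ Real.exp r * Real.exp ((m + 1 - d) * x + (d - 1) * y - c * x - r) * b *
          Real.exp ((x - y) * (d - 1 + c)) := by gcongr
    _ = Real.exp (r + ((m + 1 - d) * x + (d - 1) * y - c * x - r) + (x - y) * (d - 1 + c)) *
          b := by
        rw [Real.exp_add, Real.exp_add]
        ring
    _ ≤ _ := by
        rw [hQ, ← Real.exp_nat_mul]
        refine mul_le_mul_of_nonneg_right (Real.exp_le_exp.2 ?_) hb
        linarith [mul_nonneg c0 y0]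

end GAIN

open H17.GAIN in
theorem gain (hT : StmtTRI) (hU : StmtTUBE) (hP : StmtPLANE) (hO : StmtGEO) : StmtGAIN := by
  intro m hm d0 h3 h4 hq
  obtain ⟨σ, α, γ, g0, g1, s1, α0, hnum⟩ := num hm h3 h4 hq
  have m3 : (3 : ℝ) ≤ m := by exact_mod_cast hm
  obtain ⟨κ, κ0, hκ⟩ : ∃ κ : ℝ, 0 < κ ∧ (3 * m + 5) * κ = γ :=
    ⟨γ / (3 * m + 5), by positivity, by field_simp⟩
  obtain ⟨c, hc⟩ : ∃ c, c = (4 - d0) * κ / 2 := ⟨_, rfl⟩
  have c0 : 0 < c := by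
    rw [hc]
    exact half_pos (mul_pos (by linarith) κ0)
  refine ⟨c, c0, fun d d1 d2 hGK η e0 e1 ε hε => ?_⟩
  obtain ⟨ρ, hρ⟩ : ∃ ρ : ℕ, 2 ≤ ρ * γ := ⟨⌈2 / γ⌉₊, (div_le_iff₀ g0).1 (Nat.le_ceil _)⟩
  obtain ⟨n, hn⟩ : ∃ n : ℕ, n = 9 * 4 ^ ρ := ⟨_, rfl⟩
  obtain ⟨δ, δ0, hδ⟩ : ∃ δ : ℝ, 0 < δ ∧ (5 * n + m + 30) * δ = η * c :=
    ⟨η * c / (5 * n + m + 30), by positivity, by field_simp⟩
  obtain ⟨C3, c3, hT⟩ := hT m (by omega) δ δ0
  obtain ⟨CU, cU, hU⟩ := hU m d d1 (by linarith) hGK δ δ0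
  obtain ⟨CP, cP, hP⟩ := hP m hm
  obtain ⟨CO, cO, hO⟩ := hO m hm
  obtain ⟨Q0, hQ0⟩ := H83.GAIN.large δ0 (64 * m ^ 2 + (C3 + CU + CP + CO))
  refine ⟨5 ^ m * (Q0 : ℝ) ^ (d + c) + 1, by positivity, fun Q l G E Y hl hG hY h2l h2e => ?_⟩
  rcases G.eq_empty_or_nonempty with rfl | hne
  · rw [card_empty, Nat.cast_zero, zero_mul]
    positivity
  obtain ⟨g, hg⟩ := id hne
  have hlQ : l ≤ Q := (h2l g hg).1.trans (Nat.cast_le.2
    ((card_le_card fun t ht => mem_range.2 (hY g hg t ht).1).trans (card_range Q).le))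
  have hQ1 : (1 : ℝ) ≤ Q := hl.trans hlQ
  have hl0 : 0 < l := by linarith
  have hGc := H83.Sep.card_le hG (by exact_mod_cast (by linarith : (0 : ℝ) < Q))
  have hE : (1 : ℝ) ≤ E.card := by
    obtain ⟨t, ht⟩ : (Y g).Nonempty := card_pos.1 (by exact_mod_cast hl0.trans_le (h2l g hg).1)
    exact_mod_cast card_pos.2 ⟨_, (hY g hg t ht).2⟩
  have hε1 := Real.one_le_rpow hQ1 hε.le
  have hq0 := mul_nonneg (pow_nonneg (show (0 : ℝ) ≤ 5 by norm_num) m)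
    (Real.rpow_nonneg (Nat.cast_nonneg (α := ℝ) Q0) (d + c))
  rcases le_total Q Q0 with hQ | hQ
  · have h5 : l ^ (d + c) ≤ (Q0 : ℝ) ^ (d + c) :=
      Real.rpow_le_rpow hl0.le (hlQ.trans (Nat.cast_le.2 hQ)) (by linarith)
    calc _ ≤ 5 ^ m * (Q : ℝ) ^ m * (Q0 : ℝ) ^ (d + c) := by gcongr
      _ = 5 ^ m * (Q0 : ℝ) ^ (d + c) * 1 * (Q : ℝ) ^ m * 1 := by ring
      _ ≤ _ := by
        gcongr
        linarith
  have hR := hQ0 Q hQ
  obtain ⟨x, hx⟩ : ∃ x, x = Real.log Q := ⟨_, rfl⟩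
  obtain ⟨y, hy⟩ : ∃ y, y = x - Real.log l := ⟨_, rfl⟩
  obtain ⟨r, hr⟩ : ∃ r, r = x * δ := ⟨_, rfl⟩
  have eQ : (Q : ℝ) = Real.exp x := by rw [hx, Real.exp_log (by linarith)]
  have el : l = Real.exp (x - y) := by rw [hy, sub_sub_cancel, Real.exp_log hl0]
  have eR : (Q : ℝ) ^ δ = Real.exp r := by rw [hr, Real.exp_mul, ← eQ]
  have y0 : 0 ≤ y := by rw [hy, hx]; linarith [Real.log_le_log hl0 hlQ]
  have yx : y ≤ x := by rw [hy]; linarith [Real.log_nonneg hl]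
  have x0 : 0 ≤ x := y0.trans yx
  have mm : 3 * (m : ℝ) ≤ m ^ 2 := by nlinarith only [m3]
  have hR' : 64 * m ^ 2 + (C3 + CU + CP + CO) ≤ Real.exp r := by
    rw [← eR]
    exact le_trans (le_mul_of_one_le_right (by positivity) (by linarith only [x0, hx])) hR
  obtain ⟨R28, Rm, Rm2, R3, RU, RP, RO⟩ : 28 ≤ Real.exp r ∧ 4 * (m : ℝ) ≤ Real.exp r ∧
      (m : ℝ) ^ 2 ≤ Real.exp r ∧ C3 ≤ Real.exp r ∧ CU ≤ Real.exp r ∧ CP ≤ Real.exp r ∧
      CO ≤ Real.exp r := by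
    refine ⟨?_, ?_, ?_, ?_, ?_, ?_, ?_⟩ <;> linarith only [hR', mm, m3, c3, cU, cP, cO]
  have r2 : Real.log 2 ≤ r := (Real.log_le_iff_le_exp two_pos).2 (by linarith only [R28])
  have r0 : 0 ≤ r := (Real.log_nonneg one_le_two).trans r2
  have R1 : 1 ≤ Real.exp r := Real.one_le_exp r0
  have rη : (5 * n + m + 30) * r = η * (c * x) := by rw [hr, ← mul_assoc η, ← hδ]; ring
  obtain ⟨n2, n1⟩ := hnum d d2 x y y0 yx
  obtain ⟨jK, k, ek, k1, k2, -⟩ := H83.GAIN.dy (mul_nonneg κ0.le x0)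
  obtain ⟨j, h, eh, h1, h2, h0⟩ := H83.GAIN.dy (le_max_left 0 (σ * x - α * y))
  have hK1 : (1 : ℝ) ≤ 2 ^ jK := one_le_pow₀ one_le_two
  obtain ⟨l1, l2, l3, l4, l5, l6⟩ := lin (y := y) (h := h) (H := max 0 (σ * x - α * y)) (σ := σ)
    (α := α) m3 (Nat.cast_nonneg n) x0 r0 κ0.le g1 hκ hc h3 h4.le d1 d2 e0.le e1 rη hρ
    (Real.one_le_exp_iff.1 (ek ▸ hK1)) k1 (by linarith only [k2, r2]) (by linarith only [h2, r2])
  have hle : ∀ {i : ℕ} {a : ℝ}, (2 : ℝ) ^ i = Real.exp a → a ≤ x → 2 ^ i ≤ Q := fun e ha => by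
    have := e.trans_le ((Real.exp_le_exp.2 ha).trans eQ.ge)
    exact_mod_cast this
  have hjK := hle ek l1
  have hj := hle eh (h1.trans (max_le x0 (by
    linarith only [mul_le_of_le_one_left x0 s1, mul_nonneg α0 y0])))
  have hjQ : (2 : ℝ) ^ j ≤ Q := by exact_mod_cast hj
  obtain ⟨Y1, a1, a2, a3⟩ := hU Q jK l G Y hjK hG (fun g hg t ht => (hY g hg t ht).1) hl0 hlQ
  obtain ⟨Y2, b1, b2, b3⟩ := hU Q j l G Y1 hj hG (fun g hg t ht => (hY g hg t (a1 g ht)).1) hl0 hlQ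
  have hsum : l * G.card ≤ ∑ g ∈ G, ((Y g).card : ℝ) := by
    rw [mul_comm, ← nsmul_eq_mul]
    exact card_nsmul_le_sum _ _ _ fun g hg => (h2l g hg).1
  obtain ⟨hLg, hjR, hL0, hL⟩ := logs (i := Nat.log 2 G.card) hm hQ1 (by positivity) hR
    (le_trans (by exact_mod_cast Nat.pow_log_le_self 2 hne.card_pos.ne') hGc) hjQ
  rw [eR] at hLg hjR hL
  have hC3 : C3 * (Q : ℝ) ^ δ ≤ Real.exp r ^ 2 := by
    rw [eR, sq]
    exact mul_le_mul_of_nonneg_right R3 (Real.exp_pos r).le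
  have hρ' : 4 * m * (2 : ℝ) ^ j ≤ Real.exp (γ * x) ^ ρ :=
    (mul_le_mul Rm (hjQ.trans eQ.le) (by positivity) (by positivity)).trans (by
      rw [← Real.exp_add, ← Real.exp_nat_mul, Real.exp_le_exp]
      exact l2)
  have half : ∀ i : ℕ, (1 : ℝ) / 2 ^ i ≤ 2 / 2 ^ i := fun i =>
    div_le_div_of_nonneg_right one_le_two (by positivity)
  obtain ⟨Mk, hMk⟩ : ∃ Mk, Mk = Real.exp (2 * r + (m + 1 - d) * (x - k) + (d - 1) * y) := ⟨_, rfl⟩
  have hMn : ∀ C, C ≤ Real.exp r ^ 2 → C * (2 ^ jK) ^ (m - 3) * Mk ≤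
      Real.exp r ^ 2 * (2 ^ jK) ^ (m - 3) * Mk := fun C hC =>
    mul_le_mul_of_nonneg_right (mul_le_mul_of_nonneg_right hC (by positivity))
      (hMk ▸ (Real.exp_pos _).le)
  have c1 := core (R := Real.exp r) (K := 2 ^ jK) (C3 := C3 * (Q : ℝ) ^ δ) (n := n)
    (θ := 1 / 2 ^ j / (2 ^ jK) ^ (m - 2)) (Mk := Mk)
    (Mn := Real.exp r ^ 2 * (2 ^ jK) ^ (m - 3) * Mk)
    (T := Real.exp ((m + 1 - d) * x + (d - 1) * y - c * x - r))
    (E := E) (Y := Y2) (by omega) hG hne hl0 R1 (fun g hg t ht => hY g hg t (a1 g (b1 g ht)))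
    (fun g hg => (Nat.cast_le.2 (card_le_card ((b1 g).trans (a1 g)))).trans (h2l g hg).2)
    (by linarith only [hsum, a2, b2]) hLg Rm2
    (fun g hg t B hB hb => (H83.GAIN.ends hjK e0.le (by positivity) (h2e g hg) t B
      (hB.trans ((b1 g).trans (a1 g))) hb).trans (tail hl0.le ek R28 l3))
    (fun z => H83.GAIN.cap_weak ((a3 z).mono fun g hg => mem_thru.2 ⟨(mem_thru.1 hg).1,
      b1 g (mem_thru.1 hg).2.1, (mem_thru.1 hg).2.2⟩) (half jK)
      ((mb eQ el eR ek RU).trans hMk.ge))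
    (fun z => H83.GAIN.cap_weak (b3 z) (half j) (mb eQ el eR eh RU))
    (by positivity) hC3 (by
      rw [ek, hMk]
      simp only [← Real.exp_nat_mul, ← Real.exp_add, Real.exp_le_exp]
      push_cast [Nat.cast_sub hm]
      exact l4)
    (fun j1 s X S i1 i2 i3 i4 i5 => finT (by omega) (Nat.cast_pos.2 i3) el eQ ek eh hC3
      (hT Q s _ _ G X S hG i1 i2 i3 (by positivity) i4 (by positivity) i5)
      (l5 ((le_max_iff.1 h1).resolve_left (not_le.2 (h0 j1)))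
        (n2 ((h0 j1).trans_le ((le_max_iff.1 h1).resolve_left (not_le.2 (h0 j1)))))))
    (fun B i1 i2 i3 i4 => hO _ _ _ B hK1 (by positivity) i1 i2
      ((hMn CO (RO.trans (le_self_pow₀ R1 two_ne_zero))).trans_lt i3) i4)
    (fun s X S ι L i1 i2 i3 i4 i5 i6 i7 i8 => finP hm (Nat.cast_pos.2 i3) el eQ ek eh
      RP (by positivity) hjR hL0 hL
      (hP ρ Q s j _ _ _ _ _ _ _ G X S ι L hG i1 i2 i3 hj hK1
        (Real.one_le_exp (mul_nonneg g0.le x0)) hρ' (by positivity)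
        ((div_le_one (by positivity)).2 (one_le_pow₀ R1)) (by positivity)
        (hn ▸ psi (by positivity) (by positivity) RP hjR) (by positivity)
        i4 i5 i6 i7 ((hMn _ ((mul_le_mul RP hjR (by positivity) (by positivity)).trans
          (sq _).ge)).trans i8)) (l6 (n1 _ (le_max_left _ _) (le_max_right _ _))))
  refine (last el eQ (Nat.cast_nonneg _) c0.le y0 c1).trans ?_
  exact mul_le_mul_of_nonneg_right (le_mul_of_one_le_left (by positivity)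
    (one_le_mul_of_one_le_of_one_le (by linarith only [hq0]) hε1)) (Nat.cast_nonneg _)

end Pool.Agent.MP_5168f5_an.H17
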