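import Pool.Agent.MP_5168f5_an.H17.Spec

/-! A large set of lines that is not close to a plane of codimension two is transversal. -/

namespace Pool.Agent.MP_5168f5_an.H17

open MeasureTheory Metric Finset Matrix H19 H29 H42 H83
open scoped ENNReal

namespace GEO

variable {m : ℕ}

/-- A choice of rows: directions of lines or unit vectors. -/
abbrev Ch (m : ℕ) : Type := Fin (m + 1) → Line m ⊕ Fin m

/-- One row. -/
def row : Line m ⊕ Fin m → V (m + 1) := Sum.elim dv fun j => Pi.single j.succ 1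

/-- The matrix of a choice. -/
def mat (f : Ch m) : Matrix (Fin (m + 1)) (Fin (m + 1)) ℝ := Matrix.of fun a => row (f a)

/-- The rows that are unit vectors. -/
def rt (f : Ch m) : Finset (Fin (m + 1)) := univ.filter fun a => (f a).isRight

/-- Admissible choices with `c` unit vectors. -/
def Adm (B : Finset (Line m)) (c : ℕ) (f : Ch m) : Prop :=
  (∀ a g, f a = Sum.inl g → g ∈ B) ∧ (rt f).card = c

/-- Admissible choices with largest determinant. -/
def Mx (B : Finset (Line m)) (c : ℕ) (f : Ch m) : Prop :=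
  Adm B c f ∧ (mat f).det ≠ 0 ∧ ∀ f', Adm B c f' → |(mat f').det| ≤ |(mat f).det|

/-- The form dual to the row `a`. -/
noncomputable def fm (f : Ch m) (a : Fin (m + 1)) : V (m + 1) :=
  fun i => ((mat f).updateRow a (Pi.single i 1)).det / (mat f).det

variable {B : Finset (Line m)} {c : ℕ} {f : Ch m} {a b : Fin (m + 1)}

theorem mem_rt : a ∈ rt f ↔ ∃ j, f a = Sum.inr j := by simp [rt, Sum.isRight_iff]

theorem fm_dot (z : V (m + 1)) : fm f a ⬝ᵥ z = ((mat f).updateRow a z).det / (mat f).det := by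
  conv_rhs => rw [← cramer_transpose_apply, pi_eq_sum_univ' z, map_sum, Finset.sum_apply, sum_div]
  refine sum_congr rfl fun i _ => ?_
  rw [map_smul, Pi.smul_apply, cramer_transpose_apply, fm, smul_eq_mul]
  ring

theorem fm_row (u : Line m ⊕ Fin m) :
    fm f a ⬝ᵥ row u = (mat (Function.update f a u)).det / (mat f).det := by
  rw [fm_dot]
  congr 2
  ext i k
  by_cases h : i = a
  · subst h; simp [mat]
  · simp [mat, h]

theorem fm_succ (j : Fin m) : fm f a j.succ = fm f a ⬝ᵥ row (Sum.inr j) := by simp [row]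

theorem fm_self (h : (mat f).det ≠ 0) : fm f a ⬝ᵥ row (f a) = 1 := by
  rw [fm_row, Function.update_eq_self, div_self h]

theorem fm_ne (h : b ≠ a) : fm f a ⬝ᵥ row (f b) = 0 := by
  rw [fm_dot]
  exact div_eq_zero_iff.2 (Or.inl (det_updateRow_eq_zero h))

theorem Adm.inr (h : Adm B c f) (ha : a ∈ rt f) (j : Fin m) :
    Adm B c (Function.update f a (Sum.inr j)) := by
  refine ⟨fun b g hb => ?_, ?_⟩
  · by_cases e : b = a
    · subst e; simp at hb
    · exact h.1 b g (by simpa [e] using hb)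
  · rw [← h.2]
    congr 1
    ext b
    by_cases e : b = a
    · subst e; simpa [rt] using ha
    · simp [rt, e]

theorem Adm.inl (h : Adm B (c + 1) f) (ha : a ∈ rt f) {g : Line m} (hg : g ∈ B) :
    Adm B c (Function.update f a (Sum.inl g)) := by
  refine ⟨fun b g' hb => ?_, ?_⟩
  · by_cases e : b = a
    · subst e
      obtain rfl : g = g' := by simpa using hb
      exact hg
    · exact h.1 b g' (by simpa [e] using hb)
  · have : rt (Function.update f a (Sum.inl g)) = (rt f).erase a := by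
      ext b
      by_cases e : b = a
      · subst e; simp [rt]
      · simp [rt, e]
    rw [this, card_erase_of_mem ha, h.2, Nat.add_sub_cancel]

theorem exists_mx (h : Adm B c f) (h0 : (mat f).det ≠ 0) :
    ∃ f', Mx B c f' ∧ |(mat f).det| ≤ |(mat f').det| := by
  have hf : {f : Ch m | Adm B c f}.Finite :=
    (Fintype.piFinset fun _ => B.disjSum univ).finite_toSet.subset fun f hf =>
      mem_coe.2 (Fintype.mem_piFinset.2 fun a => by
        rcases e : f a with g | j
        · exact inl_mem_disjSum.2 (hf.1 a g e)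
        · exact inr_mem_disjSum.2 (mem_univ _))
  obtain ⟨f', h1, h2⟩ := Set.exists_max_image _ (fun f => |(mat f).det|) hf ⟨f, h⟩
  exact ⟨f', ⟨h1, abs_pos.1 ((abs_pos.2 h0).trans_le (h2 f h)), h2⟩, h2 f h⟩

theorem Mx.norm_le (h : Mx B c f) (hc : c ≤ m) (hB : ∀ g ∈ B, ∀ k, |g.2 k| ≤ 1) (ha : a ∈ rt f)
    (hm : 1 ≤ m) : ‖fm f a‖ ≤ m := by
  have h1 : ∀ j : Fin m, |fm f a j.succ| ≤ 1 := fun j => by
    rw [fm_succ, fm_row, abs_div, div_le_one (abs_pos.2 h.2.1)]
    exact h.2.2 _ (h.1.inr ha j)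
  obtain ⟨b, -, hb⟩ : ∃ b ∈ univ, b ∉ rt f :=
    exists_mem_notMem_of_card_lt_card (by rw [h.1.2]; simp; omega)
  obtain ⟨g, hg⟩ : ∃ g, f b = Sum.inl g := by
    rcases e : f b with g | j
    exacts [⟨g, rfl⟩, absurd (mem_rt.2 ⟨j, e⟩) hb]
  have h2 := fm_ne (f := f) (show b ≠ a from fun e => hb (e ▸ ha))
  rw [hg, row, Sum.elim_inl, dotProduct, Fin.sum_univ_succ] at h2
  simp only [dv, pt_zero, pt_succ, mul_one] at h2
  refine (pi_norm_le_iff_of_nonneg (Nat.cast_nonneg m)).2 fun i => ?_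
  rw [Real.norm_eq_abs]
  refine Fin.cases ?_ (fun j => (h1 j).trans (by exact_mod_cast hm)) i
  rw [eq_neg_of_add_eq_zero_left h2, abs_neg]
  refine (abs_sum_le_sum_abs _ _).trans ((sum_le_card_nsmul _ _ 1 fun j _ => ?_).trans (by simp))
  rw [abs_mul]
  exact mul_le_one₀ (h1 j) (abs_nonneg _) (hB g (h.1.1 b g hg) j)

/-- Two unit rows give a frame. -/
theorem Mx.frame (h : Mx B c f) (hc : c ≤ m) (hB : ∀ g ∈ B, ∀ k, |g.2 k| ≤ 1) (hm : 1 ≤ m)
    (hab : a ≠ b) {i j : Fin m} (ha : f a = Sum.inr i) (hb : f b = Sum.inr j) :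
    Frame ![i, j] ![fm f a, fm f b] := by
  refine ⟨fun r r' => ?_, (pi_norm_le_iff_of_nonneg (Nat.cast_nonneg m)).2 fun r => ?_⟩
  · fin_cases r <;> fin_cases r' <;> simp [fm_succ, ← ha, ← hb, fm_self h.2.1, fm_ne hab,
      fm_ne hab.symm]
  · fin_cases r
    exacts [h.norm_le hc hB (mem_rt.2 ⟨i, ha⟩) hm, h.norm_le hc hB (mem_rt.2 ⟨j, hb⟩) hm]

theorem pl {t : ℝ} (ht : 0 ≤ t) (h : ∀ a ∈ rt f, ∀ g ∈ B, |fm f a ⬝ᵥ dv g| ≤ t) (ha : a ∈ rt f)
    (hb : b ∈ rt f) : Pl t ![fm f a, fm f b] B := fun g hg =>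
  (pi_norm_le_iff_of_nonneg ht).2 fun r => by
    fin_cases r
    exacts [h a ha g hg, h b hb g hg]

/-- One more line among the rows. -/
theorem descend {t s : ℝ} (ht : 0 ≤ t) (hs : 0 < s)
    (H : ∀ f, Mx B (c + 1) f → ¬∀ a ∈ rt f, ∀ g ∈ B, |fm f a ⬝ᵥ dv g| ≤ t)
    (h : ∃ f, Adm B (c + 1) f ∧ s ≤ |(mat f).det|) :
    ∃ f, Adm B c f ∧ s * t ≤ |(mat f).det| := by
  obtain ⟨f0, h1, h2⟩ := h
  obtain ⟨f, h3, h4⟩ := exists_mx h1 (abs_pos.1 (hs.trans_le h2))
  by_contra h5
  push Not at h5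
  refine H f h3 fun a ha g hg => ?_
  change |fm f a ⬝ᵥ row (Sum.inl g)| ≤ t
  rw [fm_row, abs_div, div_le_iff₀ (abs_pos.2 h3.2.1), mul_comm]
  exact (h5 _ (h3.1.inl ha hg)).le.trans (mul_le_mul_of_nonneg_right (h2.trans h4) ht)

theorem base {g : Line m} (hg : g ∈ B) : ∃ f, Adm B m f ∧ 1 ≤ |(mat f).det| := by
  refine ⟨Fin.cons (Sum.inl g) Sum.inr, ⟨fun a g' => ?_, ?_⟩, ?_⟩
  · refine Fin.cases (fun h => ?_) (fun j h => by simp at h) a
    obtain rfl : g = g' := by simpa using h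
    exact hg
  · have : rt (Fin.cons (Sum.inl g) Sum.inr : Ch m) = univ.erase 0 := by
      ext b
      refine Fin.cases ?_ (fun j => ?_) b <;> simp [rt]
    rw [this, card_erase_of_mem (mem_univ _)]
    simp
  · rw [det_of_isUpperTriangular, Fin.prod_univ_succ]
    · simp [mat, row, dv]
    · intro i k
      refine Fin.cases (fun h => absurd h (Fin.not_lt_zero _)) (fun j h => ?_) i
      exact Pi.single_eq_of_ne (M := fun _ => ℝ) (show k ≠ j.succ from ne_of_lt h) 1

theorem tri {t : ℝ} (h : Adm B 1 f) (ht : t ≤ |(mat f).det|) : Tri t B := by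
  obtain ⟨a, ha⟩ := card_eq_one.1 h.2
  obtain ⟨j, hj⟩ := mem_rt.1 (ha ▸ mem_singleton_self a)
  have h1 : ∀ i : Fin m, ∃ g, f (Equiv.swap 0 a i.succ) = Sum.inl g := fun i => by
    rcases e : f (Equiv.swap 0 a i.succ) with g | k
    · exact ⟨g, rfl⟩
    · have := mem_rt.2 ⟨k, e⟩
      rw [ha, mem_singleton, Equiv.swap_apply_eq_iff, Equiv.swap_apply_right] at this
      exact absurd this (Fin.succ_ne_zero i)
  choose w hw using h1
  refine ⟨w, fun i => h.1 _ _ (hw i), j.succ, ht.trans_eq ?_⟩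
  rw [← abs_det_submatrix_equiv_equiv (Equiv.swap 0 a) (Equiv.refl _) (mat f)]
  congr 2
  ext i k
  refine Fin.cases ?_ (fun i => ?_) i <;> simp [mat, row, hj, hw]

end GEO

open GEO in
theorem geo (hC : StmtCOV) : StmtGEO := by
  intro m hm
  obtain ⟨C, C1, hC⟩ := hC m hm
  refine ⟨C, C1, fun K θ M B hK hθ hB hM hcard hF => ?_⟩
  have K0 : 0 < K := by linarith
  have K1 : 0 < 1 / K := by positivity
  obtain ⟨g, hg⟩ : B.Nonempty := by
    have := hM.nonneg
    exact card_pos.1 (Nat.cast_pos.1 (lt_of_le_of_lt (by positivity) hcard))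
  have key : ∀ k c, c + k = m → 2 ≤ c → ∃ f, Adm B c f ∧ (1 / K) ^ k ≤ |(mat f).det| := by
    intro k
    induction k with
    | zero => rintro c rfl -; simpa using base hg
    | succ k ih =>
      intro c h1 h2
      rw [pow_succ]
      refine descend K1.le (by positivity) (fun f hf h => ?_) (ih (c + 1) (by omega) (by omega))
      obtain ⟨a, b, e, ha, hb, he, hab, hae, hbe⟩ := two_lt_card_iff.1
        (show 2 < (rt f).card by rw [hf.1.2]; omega)
      obtain ⟨i, hi⟩ := mem_rt.1 ha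
      obtain ⟨j, hj⟩ := mem_rt.1 hb
      obtain ⟨l, hl⟩ := mem_rt.1 he
      have h3 : 1 ≤ ‖fm f e‖ := by
        have := norm_le_pi_norm (fm f e) l.succ
        rwa [fm_succ, ← hl, fm_self hf.2.1, norm_one] at this
      have h4 := hC (1 / K) (‖fm f e‖ * (1 / K)) M _ _ (fm f e) B K1
        ((div_le_one K0).2 hK) (hf.frame (by omega) hB (by omega) hab hi hj) (pl K1.le h ha hb) hM hB
        (fun r => by fin_cases r <;> simp [fm_succ, ← hi, ← hj, fm_ne hae, fm_ne hbe]) le_rfl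
        (fun g hg => (h e he g hg).trans (le_mul_of_one_le_left K1.le h3))
      rw [show m - 2 = m - 3 + 1 by omega, pow_succ, _root_.one_div_pow] at h4
      have h5 : (B.card : ℝ) ≤ C * K ^ (m - 3) * M := by
        have h6 : 0 < ‖fm f e‖ * (1 / K ^ (m - 3) * (1 / K)) := by positivity
        refine le_of_mul_le_mul_right (le_of_eq_of_le (by ring) (h4.trans_eq ?_)) h6
        field_simp
      linarith
  obtain ⟨f, h1, h2⟩ := descend (c := 1) hθ.le (by positivity) (fun f hf h => by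
    obtain ⟨a, ha, b, hb, hab⟩ := one_lt_card.1 (show 1 < (rt f).card by rw [hf.1.2]; omega)
    obtain ⟨i, hi⟩ := mem_rt.1 ha
    obtain ⟨j, hj⟩ := mem_rt.1 hb
    exact hF _ _ (hf.frame (by omega) hB (by omega) hab hi hj) (pl hθ.le h ha hb))
    (key (m - 2) 2 (by omega) le_rfl)
  refine tri h1 (le_of_eq_of_le ?_ h2)
  rw [_root_.one_div_pow]
  ring

end Pool.Agent.MP_5168f5_an.H17
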