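import Pool.Agent.MP_5168f5_an.H17.Spec

/-! The multiplicity bound near planes of codimension two, from the one-level bound. -/

namespace Pool.Agent.MP_5168f5_an.H17

open MeasureTheory Metric Finset Matrix H19 H29 H42 H83
open scoped ENNReal

namespace PLANE

variable {m : ℕ}

theorem thin_of {ι : Fin 2 → Fin m} {L L' : Fr m} (h : Frame ι L) (h' : Frame ι L') {w : ℝ}
    (hw : 2 * m ≤ w) : Thin w (L' - L) := by
  refine ⟨Pi.single 0 1, by simp [Pi.norm_single], ?_⟩
  have e : cmb (Pi.single 0 1) (L' - L) = (L' - L) 0 := by simp [cmb]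
  rw [e]
  have h1 := norm_le_pi_norm (L' - L) 0
  have h2 := norm_sub_le L' L
  linarith [h.2, h'.2]

theorem all_pairs {Q s : ℕ} {a w : ℝ} {G : Finset (Line m)} {X : Finset (Pt m)}
    {S : Pt m → Finset (Line m)} {L : Pt m → Fr m} (hI : Incid Q s G X S) (ha : 0 ≤ a)
    (hav : a * G.card ≤ s * X.card) (hT : ∀ x ∈ X, ∀ y ∈ X, Thin w (L y - L x)) :
    a * (s * X.card) ≤ (prs G X S L w).card := by
  classical
  set Y : Line m → Finset (Pt m) := fun g => X.filter fun x => g ∈ S x with hY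
  have h1 : ∑ g ∈ G, ((Y g).card : ℝ) = s * X.card := by exact_mod_cast hI.sum_card
  have h2 : ∑ g ∈ G, ((Y g).card : ℝ) * (Y g).card ≤ (prs G X S L w).card := by
    have e : ∑ g ∈ G, (Y g).card * (Y g).card = (G.sigma fun g => Y g ×ˢ Y g).card := by
      rw [Finset.card_sigma]
      exact Finset.sum_congr rfl fun g _ => (Finset.card_product _ _).symm
    have h3 : (G.sigma fun g => Y g ×ˢ Y g).card ≤ (prs G X S L w).card := by
      refine Finset.card_le_card_of_injOn (fun e => (e.1, e.2)) (fun e he => ?_) ?_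
      · obtain ⟨b1, b2⟩ := Finset.mem_sigma.1 (Finset.mem_coe.1 he)
        obtain ⟨b3, b4⟩ := Finset.mem_product.1 b2
        obtain ⟨b5, b6⟩ := Finset.mem_filter.1 b3
        obtain ⟨b7, b8⟩ := Finset.mem_filter.1 b4
        refine Finset.mem_coe.2 ?_
        unfold prs
        exact Finset.mem_filter.2 ⟨Finset.mem_product.2 ⟨b1, Finset.mem_product.2 ⟨b5, b7⟩⟩,
          b6, b8, hT _ b5 _ b7⟩
      · rintro ⟨g, e⟩ _ ⟨g', e'⟩ _ h
        obtain ⟨rfl, rfl⟩ := Prod.ext_iff.1 h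
        rfl
    rw [← e] at h3
    exact_mod_cast h3
  have h4 : ∀ g ∈ G, 2 * a * (Y g).card - a ^ 2 ≤ ((Y g).card : ℝ) * (Y g).card := fun g _ => by
    nlinarith [sq_nonneg (((Y g).card : ℝ) - a)]
  have h5 := (Finset.sum_le_sum h4).trans h2
  rw [Finset.sum_sub_distrib, ← Finset.mul_sum, h1, Finset.sum_const, nsmul_eq_mul] at h5
  nlinarith [mul_le_mul_of_nonneg_left hav ha]

end PLANE

open PLANE in
theorem plane : StmtCORE → StmtPLANE := by
  classical
  intro hC m hm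
  obtain ⟨C0, hC0, hK0⟩ := hC m hm
  refine ⟨C0 ^ 2, one_le_pow₀ hC0, ?_⟩
  intro r Q s j K R l φ ψ Mf Mk G X S ι L hG hI hne hs hj hK hR hRr hφ hφ1 hψ hψr hl hx hlg hav
    h2e hMk
  obtain ⟨x1, hx1⟩ := id hne
  have hMk0 : 0 ≤ Mk := (hx x1 hx1).2.2.1.nonneg
  have hsr : (0 : ℝ) < s := by exact_mod_cast hs
  have hJ : (1 : ℝ) ≤ (j : ℝ) + 1 := by linarith [Nat.cast_nonneg (α := ℝ) j]
  set A : ℝ := C0 * ((j : ℝ) + 1) ^ 2 with hA
  have hA1 : 1 ≤ A := one_le_mul_of_one_le_of_one_le hC0 (one_le_pow₀ hJ)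
  have hA2 : 1 ≤ A ^ 2 := one_le_pow₀ hA1
  have eA : C0 ^ 2 * ((j : ℝ) + 1) ^ 4 = A ^ 2 := by rw [hA]; ring
  rw [eA] at hψr
  set x : ℝ := φ / A ^ 2 with hxd
  have hx0 : 0 < x := by positivity
  have hx1' : x ≤ 1 := by rw [hxd, div_le_one (by positivity)]; linarith
  have eφ : A ^ 2 * x = φ := by rw [hxd]; field_simp
  set b : ℕ → ℝ := fun k => A ^ 2 * x ^ 4 ^ k with hb
  have hb0 : ∀ k, 0 < b k := fun k => by rw [hb]; positivity
  have hb1 : ∀ k, b k ≤ 1 := fun k => by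
    have h := pow_le_of_le_one hx0.le hx1' (n := 4 ^ k) (by positivity)
    have := mul_le_mul_of_nonneg_left h (by positivity : 0 ≤ A ^ 2)
    simp only [hb]
    linarith
  have hb2 : ∀ k, k ≤ r → ψ ≤ b k := fun k hk => by
    have h := pow_le_pow_of_le_one hx0.le hx1' (Nat.pow_le_pow_right (by norm_num : 0 < 4) hk)
    have := le_mul_of_one_le_left (by positivity : 0 ≤ x ^ 4 ^ k) hA2
    simp only [hb]
    linarith
  have hb3 : ∀ k, b (k + 1) ≤ (b k / A) ^ 4 := fun k => by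
    have e : (b k / A) ^ 4 = A ^ 2 * (A ^ 2 * x ^ 4 ^ (k + 1)) := by
      simp only [hb]
      rw [pow_succ 4 k, pow_mul]
      field_simp
    rw [e]
    exact le_mul_of_one_le_left (hb0 (k + 1)).le hA2
  have h2j : (0 : ℝ) < 2 ^ j := by positivity
  have hex : ∃ i, b (r - i) * (s * l * X.card) ≤ (prs G X S L (R ^ i / 2 ^ j)).card ∧ i ≤ r := by
    refine ⟨r, ?_, le_rfl⟩
    have h := all_pairs (w := R ^ r / 2 ^ j) (L := L) hI (mul_pos hφ hl).le hav
      fun y hy z hz => thin_of (hx y hy).1 (hx z hz).1 (by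
        rw [le_div_iff₀ h2j]
        have : (0 : ℝ) ≤ m * 2 ^ j := by positivity
        linarith)
    have e : b (r - r) * (s * l * X.card) = φ * l * (s * X.card) := by
      simp only [hb, Nat.sub_self, pow_zero, pow_one, eφ]
      ring
    rwa [e]
  obtain ⟨hi1, hi2⟩ := Nat.find_spec hex
  have hi3 := fun i => Nat.find_min hex (m := i)
  generalize Nat.find hex = i at hi1 hi2 hi3
  have hc := hb2 (r - i) (Nat.sub_le _ _)
  have hρ : 1 ≤ C0 * K * R :=
    one_le_mul_of_one_le_of_one_le (one_le_mul_of_one_le_of_one_le hC0 hK) hR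
  have key := hK0 Q s j K l (b (r - i)) (R ^ i / 2 ^ j) (C0 * K * R) Mf Mk G X S ι L hG hI hne hs
    hj hK (hb0 _) (hb1 _) hl hρ hx hlg
    (fun g hg t B hB h => (h2e g hg t B hB h).trans (by gcongr))
    (by
      have h1 : C0 * (j + 1) * K ^ (m - 3) * Mk ≤ C0 ^ 2 * (j + 1) * K ^ (m - 3) * Mk := by
        have : C0 ≤ C0 ^ 2 := by nlinarith
        gcongr
      have h2 := mul_le_mul_of_nonneg_right hc hsr.le
      linarith)
    hi1
    (by
      rcases i with _ | i
      · left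
        rw [pow_zero]
        gcongr
      · right
        have e : C0 * K * (R ^ (i + 1) / 2 ^ j) / (C0 * K * R) = R ^ i / 2 ^ j := by
          rw [pow_succ]
          field_simp
        rw [e]
        have h1 := hi3 i (Nat.lt_succ_self i)
        have h2 : ((prs G X S L (R ^ i / 2 ^ j)).card : ℝ) < b (r - i) * (s * l * X.card) := by
          by_contra h
          exact h1 ⟨not_lt.1 h, by omega⟩
        have e2 : r - i = r - (i + 1) + 1 := by omega
        rw [e2] at h2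
        exact h2.le.trans (mul_le_mul_of_nonneg_right (hb3 _) (by positivity)))
  have h5 : (s : ℝ) ^ 3 * l ^ 2 * ψ ^ 5 ≤ (s : ℝ) ^ 3 * l ^ 2 * b (r - i) ^ 5 := by gcongr
  refine h5.trans (key.trans (le_of_eq ?_))
  ring

end Pool.Agent.MP_5168f5_an.H17
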