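import Pool.Agent.MP_5168f5_an.H83.Final
import Pool.Agent.MP_5168f5_an.H17.ALG
import Pool.Agent.MP_5168f5_an.H17.Boot
import Pool.Agent.MP_5168f5_an.H17.CAPS
import Pool.Agent.MP_5168f5_an.H17.CORE
import Pool.Agent.MP_5168f5_an.H17.COV
import Pool.Agent.MP_5168f5_an.H17.GAIN
import Pool.Agent.MP_5168f5_an.H17.GEO
import Pool.Agent.MP_5168f5_an.H17.PLANE

/-! Assembly of the modules. -/

namespace Pool.Agent.MP_5168f5_an.H17

theorem plane_all : StmtPLANE := plane (core cov slab alg pair (caps cov))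

theorem gk_final {m : ℕ} (hm : 3 ≤ m) {p : ℝ} (hp : p ≤ 4)
    (hq : (m : ℝ) - 1 ≤ 2 * (m + 1 - p) + (m + 1 - p - m / (m + 1)) * (4 - p)) : H42.GK m 1 p :=
  gk_all (gain H83.tri_all H83.tube plane_all (geo cov)) H83.ends hm hp hq

end Pool.Agent.MP_5168f5_an.H17
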