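import Pool.Agent.MP_5168f5_an.H83.Basic

/-! The brush argument for planes of codimension two in every dimension: definitions and the
statements of the modules. -/

namespace Pool.Agent.MP_5168f5_an.H17

open MeasureTheory Metric Finset Matrix H19 H29 H42 H83
open scoped ENNReal

variable {m : ℕ}

/-- A pair of linear forms on the space of direction vectors. -/
abbrev Fr (m : ℕ) : Type := Fin 2 → V (m + 1)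

/-- The values of the two forms at a vector. -/
def act (L : Fr m) (z : V (m + 1)) : V 2 := fun r => L r ⬝ᵥ z

/-- A linear combination of the two forms. -/
def cmb (ν : V 2) (L : Fr m) : V (m + 1) := ν 0 • L 0 + ν 1 • L 1

/-- The forms are normalised on the two coordinates `ι`. -/
def Frame (ι : Fin 2 → Fin m) (L : Fr m) : Prop :=
  (∀ r r', L r (ι r').succ = if r = r' then 1 else 0) ∧ ‖L‖ ≤ m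

/-- Both forms are at most `θ` on the directions of `A`. -/
def Pl (θ : ℝ) (L : Fr m) (A : Finset (Line m)) : Prop := ∀ g ∈ A, ‖act L (dv g)‖ ≤ θ

/-- Some normalised combination of the two forms is at most `w`. -/
def Thin (w : ℝ) (D : Fr m) : Prop := ∃ ν : V 2, ‖ν‖ = 1 ∧ ‖cmb ν D‖ ≤ w

open Classical in
/-- Pairs of cells on a common line whose frames differ by a thin pair of forms. -/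
noncomputable def prs (G : Finset (Line m)) (X : Finset (Pt m)) (S : Pt m → Finset (Line m))
    (L : Pt m → Fr m) (w : ℝ) : Finset (Line m × Pt m × Pt m) :=
  (G ×ˢ X ×ˢ X).filter fun e => e.1 ∈ S e.2.1 ∧ e.1 ∈ S e.2.2 ∧ Thin w (L e.2.2 - L e.2.1)

/-- Covering a slice of a plane by caps. -/
def StmtCOV : Prop :=
  ∀ m : ℕ, 3 ≤ m → ∃ C : ℝ, 1 ≤ C ∧ ∀ (θ W M : ℝ) (ι : Fin 2 → Fin m) (L : Fr m) (φ : V (m + 1))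
    (A : Finset (Line m)), 0 < θ → θ ≤ 1 → Frame ι L → Pl θ L A → Cap θ M A →
    (∀ g ∈ A, ∀ k, |g.2 k| ≤ 1) → (∀ r, φ (ι r).succ = 0) → ‖φ‖ * θ ≤ W →
    (∀ g ∈ A, |φ ⬝ᵥ dv g| ≤ W) → (A.card : ℝ) * ‖φ‖ * θ ^ (m - 2) ≤ C * W * M

/-- Separated directions in a slab. -/
def StmtSLAB : Prop :=
  ∀ m : ℕ, ∃ C : ℝ, 1 ≤ C ∧ ∀ (Q : ℕ) (W : ℝ) (φ : V (m + 1)) (k : Fin m) (G : Finset (Line m)),
    Sep Q G → 1 ≤ W * Q → 1 ≤ |φ k.succ| → ‖φ‖ ≤ 2 * m → (∀ g ∈ G, |φ ⬝ᵥ dv g| ≤ W) →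
    (G.card : ℝ) ≤ C * (Q : ℝ) ^ m * W

/-- The geometry of a tree: the last direction lies in a slab that depends only on the root. -/
def StmtALG : Prop :=
  ∀ m : ℕ, ∃ C : ℝ, 1 ≤ C ∧ ∀ (θ sb K W : ℝ) (Lp Lq Ly L0 : Fr m) (ν : V 2) (z0 z2 z3 : V (m + 1)),
    0 < sb → 1 ≤ K → θ ≤ W → ‖z0‖ ≤ 1 → ‖z2‖ ≤ 1 → ‖z3‖ ≤ 1 → ‖ν‖ = 1 →
    ‖cmb ν (L0 - Lp)‖ ≤ W → sb / 2 ≤ ‖L0 - Lp‖ → Thin W (Lq - Lp) → Thin W (L0 - Lq) →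
    Thin W (Ly - Lp) → ‖Lq - Lp‖ ≤ sb → ‖Ly - Lq‖ ≤ sb →
    ‖act Lp z0‖ ≤ θ → ‖act L0 z0‖ ≤ θ → sb ≤ K * ‖act (Lq - Lp) z0‖ →
    ‖act Lq z2‖ ≤ θ → ‖act Ly z2‖ ≤ θ → sb ≤ K * ‖act (Lq - Lp) z2‖ → ‖act Ly z3‖ ≤ θ →
    |cmb ν Lp ⬝ᵥ z3| ≤ C * K ^ 2 * W

/-- Two frames on one line that are thin with respect to a third one are thin. -/
def StmtPAIR : Prop :=
  ∀ m : ℕ, ∃ C : ℝ, 1 ≤ C ∧ ∀ (θ sb K w : ℝ) (Lp Lq Ly Lz : Fr m) (z2 : V (m + 1)),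
    0 < sb → 1 ≤ K → θ ≤ w → ‖z2‖ ≤ 1 → ‖Lq - Lp‖ ≤ sb → ‖Ly - Lq‖ ≤ sb → ‖Lz - Lq‖ ≤ sb →
    ‖act Lq z2‖ ≤ θ → ‖act Ly z2‖ ≤ θ → ‖act Lz z2‖ ≤ θ → sb ≤ K * ‖act (Lq - Lp) z2‖ →
    Thin w (Ly - Lp) → Thin w (Lz - Lp) → Thin (C * K * w) (Lz - Ly)

/-- The lines through `z` that lead back to `x`. -/
def StmtCAPS : Prop :=
  ∀ m : ℕ, 3 ≤ m → ∃ C : ℝ, 1 ≤ C ∧ ∀ (Q : ℕ) (K θ om M : ℝ) (x z : Pt m) (ι : Fin 2 → Fin m)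
    (Lx Lz : Fr m) (A : Finset (Line m)), Cap θ M A → 1 ≤ θ * Q → θ ≤ 1 → 1 ≤ K → 0 ≤ om →
    Frame ι Lx → Frame ι Lz → Pl θ Lz A → x.2 < Q → z.2 < Q →
    (om ≤ 2 * θ ∨ ¬Thin (om / 2) (Lz - Lx)) →
    (∀ g ∈ A, (∀ k, |g.2 k| ≤ 1) ∧ ∃ (g1 : Line m) (y : Pt m), y.2 < Q ∧ (∀ k, |g1.2 k| ≤ 1) ∧
      cell g1 x.2 = x.1 ∧ cell g1 y.2 = y.1 ∧ cell g y.2 = y.1 ∧ cell g z.2 = z.1 ∧
      (Q : ℝ) ≤ K * |(y.2 : ℝ) - z.2| ∧ ‖act Lx (dv g1)‖ ≤ θ) →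
    (A.card : ℝ) * om * θ ^ (m - 3) ≤ C * K * M

/-- The multiplicity bound when one level of thinness dominates. -/
def StmtCORE : Prop :=
  ∀ m : ℕ, 3 ≤ m → ∃ C : ℝ, 1 ≤ C ∧ ∀ (Q s j : ℕ) (K l c w ρ Mf Mk : ℝ) (G : Finset (Line m))
    (X : Finset (Pt m)) (S : Pt m → Finset (Line m)) (ι : Fin 2 → Fin m) (L : Pt m → Fr m),
    Sep Q G → Incid Q s G X S → X.Nonempty → 0 < s → 2 ^ j ≤ Q → 1 ≤ K → 0 < c → c ≤ 1 → 0 < l →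
    1 ≤ ρ →
    (∀ x ∈ X, Frame ι (L x) ∧ Pl (1 / 2 ^ j) (L x) (S x) ∧ Cap (1 / K) Mk (S x) ∧
      Cap (1 / 2 ^ j) Mf (S x)) →
    (∀ g ∈ G, ∀ B ⊆ X, (∀ x ∈ B, g ∈ S x) → (B.card : ℝ) ≤ l) →
    (∀ g ∈ G, ∀ t : ℕ, ∀ B ⊆ X, (∀ x ∈ B, g ∈ S x ∧ K * |(x.2 : ℝ) - t| < Q) →
      (B.card : ℝ) ≤ c * l / 4) →
    C * (j + 1) * K ^ (m - 3) * Mk ≤ c * s →
    c * (s * l * X.card) ≤ (prs G X S L w).card →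
    (w ≤ ρ / 2 ^ j ∨ ((prs G X S L (C * K * w / ρ)).card : ℝ) ≤
      (c / (C * ((j : ℝ) + 1) ^ 2)) ^ 4 * (s * l * X.card)) →
    (s : ℝ) ^ 3 * l ^ 2 * c ^ 5 ≤ C * ((j : ℝ) + 1) ^ 11 * K ^ (3 * m + 4) * ρ *
      (Q : ℝ) ^ (m + 1) * (1 + Real.log (2 * Q + 1)) * (2 ^ j) ^ (m - 3) * Mf

/-- The multiplicity bound for configurations near planes of codimension two. -/
def StmtPLANE : Prop :=
  ∀ m : ℕ, 3 ≤ m → ∃ C : ℝ, 1 ≤ C ∧ ∀ (r Q s j : ℕ) (K R l φ ψ Mf Mk : ℝ) (G : Finset (Line m))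
    (X : Finset (Pt m)) (S : Pt m → Finset (Line m)) (ι : Fin 2 → Fin m) (L : Pt m → Fr m),
    Sep Q G → Incid Q s G X S → X.Nonempty → 0 < s → 2 ^ j ≤ Q → 1 ≤ K → 1 ≤ R →
    4 * m * 2 ^ j ≤ R ^ r → 0 < φ → φ ≤ 1 → 0 < ψ → ψ ≤ (φ / (C * ((j : ℝ) + 1) ^ 4)) ^ 4 ^ r →
    0 < l →
    (∀ x ∈ X, Frame ι (L x) ∧ Pl (1 / 2 ^ j) (L x) (S x) ∧ Cap (1 / K) Mk (S x) ∧
      Cap (1 / 2 ^ j) Mf (S x)) →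
    (∀ g ∈ G, ∀ B ⊆ X, (∀ x ∈ B, g ∈ S x) → (B.card : ℝ) ≤ l) →
    φ * l * G.card ≤ s * X.card →
    (∀ g ∈ G, ∀ t : ℕ, ∀ B ⊆ X, (∀ x ∈ B, g ∈ S x ∧ K * |(x.2 : ℝ) - t| < Q) →
      (B.card : ℝ) ≤ ψ * l / 4) →
    C * (j + 1) * K ^ (m - 3) * Mk ≤ ψ * s →
    (s : ℝ) ^ 3 * l ^ 2 * ψ ^ 5 ≤ C * ((j : ℝ) + 1) ^ 11 * K ^ (3 * m + 5) * R *
      (Q : ℝ) ^ (m + 1) * (1 + Real.log (2 * Q + 1)) * (2 ^ j) ^ (m - 3) * Mf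

/-- A large set of lines that is not close to a plane of codimension two is transversal. -/
def StmtGEO : Prop :=
  ∀ m : ℕ, 3 ≤ m → ∃ C : ℝ, 1 ≤ C ∧ ∀ (K θ M : ℝ) (B : Finset (Line m)), 1 ≤ K → 0 < θ →
    (∀ g ∈ B, ∀ k, |g.2 k| ≤ 1) → Cap (1 / K) M B → C * K ^ (m - 3) * M < B.card →
    (∀ (ι : Fin 2 → Fin m) (L : Fr m), Frame ι L → ¬Pl θ L B) → Tri (θ / K ^ (m - 2)) B

/-- The gain for two-ended shadings. -/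
def StmtGAIN : Prop :=
  ∀ m : ℕ, 3 ≤ m → ∀ d0 : ℝ, 3 ≤ d0 → d0 < 4 →
    (m : ℝ) - 1 < 2 * (m + 1 - d0) + (m + 1 - d0 - m / (m + 1)) * (4 - d0) →
    ∃ c : ℝ, 0 < c ∧ ∀ d : ℝ, 1 ≤ d → d ≤ d0 → GK m 1 d → TwoE m (d + c)

end Pool.Agent.MP_5168f5_an.H17
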